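import Pool.Agent.Helper81.JN.Seq

/-!
# Combinatorics of the faces

A proper face of the polytope is encoded by a pair `(I, J)` of index sets (the places where the
two potentials are minimal).  `Cl` records the closure properties of such a pair.
-/

namespace Pool.Helper81.JN

/-- closed pairs of index sets -/
structure Cl (n : ℕ) (I J : ℕ → Prop) : Prop where
  rI : ∀ i, I i → 1 ≤ i ∧ i + 2 ≤ n
  rJ : ∀ j, J j → 2 ≤ j ∧ j + 1 ≤ n
  neI : ∃ i, I i
  neJ : ∃ j, J j
  rev : ∀ i j, I i → J j → j ≤ i → ∀ m, j ≤ m → m ≤ i → I m ∧ J m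
  adj : ∀ i, I i → J (i + 1) → J i ∧ I (i + 1)

/-- the face encoded by `(I, J)` has its label inside `s` -/
def Sub (s I J : ℕ → Prop) : Prop :=
  (∀ i, I i → s i) ∧ (∀ j, J j → s j) ∧ (¬ s 0 → ∀ m, I m → J m → False)

theorem exists_max {P : ℕ → Prop} {N : ℕ} (hb : ∀ i, P i → i ≤ N) (hne : ∃ i, P i) :
    ∃ M, P M ∧ ∀ i, P i → i ≤ M := by
  obtain ⟨i, hi⟩ := hne
  have hfin : {i | P i}.Finite := (Set.finite_Iic N).subset fun i hi => hb i hi
  obtain ⟨M, hM, hmax⟩ := Set.exists_max_image {i | P i} id hfin ⟨i, hi⟩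
  exact ⟨M, hM, fun i hi => hmax i hi⟩

theorem exists_min {P : ℕ → Prop} (hne : ∃ i, P i) :
    ∃ M, P M ∧ ∀ i, P i → M ≤ i := by
  classical
  exact ⟨Nat.find hne, Nat.find_spec hne, fun i hi => Nat.find_min' hne hi⟩

theorem facet_weak {n k : ℕ} {I J : ℕ → Prop} (rI : ∀ i, I i → 1 ≤ i ∧ i + 2 ≤ n)
    (rJ : ∀ j, J j → 2 ≤ j ∧ j + 1 ≤ n) (neI : ∃ i, I i) (neJ : ∃ j, J j)
    (T : ∀ M, I M → (∀ i, I i → i ≤ M) → ¬ J (M + 1))
    (B : ∀ m, J m → (∀ j, J j → m ≤ j) → ¬ I (m - 1))
    (k1 : 1 ≤ k) (k2 : k + 1 ≤ n) (kI : ¬ I k) (kJ : ¬ J k)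
    (cr : ∀ i j, I i → J j → j < k → k < i → False) :
    ∃ p q, Fa n p q ∧ (k = p ∨ k = q) ∧ (∀ i, I i → i < q ∧ i ≠ p) ∧
      (∀ j, J j → p < j ∧ j ≠ q) := by
  by_cases h : ∃ i, I i ∧ k < i
  · obtain ⟨i0, hi0, hki0⟩ := h
    obtain ⟨M, hM, hmax⟩ := exists_max (P := I) (N := n) (fun i hi => by have := rI i hi; omega)
      ⟨i0, hi0⟩
    have hM2 := rI M hM
    have hkM : k < M := lt_of_lt_of_le hki0 (hmax i0 hi0)
    refine ⟨k, M + 1, ⟨k1, by omega, by omega, by omega, by omega, by omega⟩, Or.inl rfl, ?_, ?_⟩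
    · intro i hi
      refine ⟨by have := hmax i hi; omega, ?_⟩
      rintro rfl; exact kI hi
    · intro j hj
      refine ⟨?_, ?_⟩
      · by_contra hc
        have hjk : j ≠ k := by rintro rfl; exact kJ hj
        exact cr M j hM hj (by omega) hkM
      · rintro rfl; exact T M hM hmax hj
  · by_cases h' : ∃ j, J j ∧ j < k
    · obtain ⟨j0, hj0, hkj0⟩ := h'
      obtain ⟨m, hm, hmin⟩ := exists_min (P := J) ⟨j0, hj0⟩
      have hm2 := rJ m hm
      have hkm : m < k := lt_of_le_of_lt (hmin j0 hj0) hkj0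
      refine ⟨m - 1, k, ⟨by omega, by omega, by omega, by omega, by omega, by omega⟩,
        Or.inr rfl, ?_, ?_⟩
      · intro i hi
        refine ⟨?_, ?_⟩
        · by_contra hc
          have hik : i ≠ k := by rintro rfl; exact kI hi
          exact cr i m hi hm hkm (by omega)
        · rintro rfl; exact B m hm hmin hi
      · intro j hj
        refine ⟨by have := hmin j hj; omega, ?_⟩
        rintro rfl; exact kJ hj
    · push Not at h h'
      obtain ⟨i1, hi1⟩ := neI
      obtain ⟨j1, hj1⟩ := neJ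
      have hI : ∀ i, I i → i < k := fun i hi =>
        lt_of_le_of_ne (h i hi) (by rintro rfl; exact kI hi)
      have hJ : ∀ j, J j → k < j := fun j hj =>
        lt_of_le_of_ne (h' j hj) (by rintro rfl; exact kJ hj)
      have a1 := hI i1 hi1
      have a2 := hJ j1 hj1
      have a3 := rI i1 hi1
      have a4 := rJ j1 hj1
      refine ⟨k, k, ⟨by omega, by omega, by omega, by omega, by omega, by omega⟩, Or.inl rfl,
        fun i hi => ?_, fun j hj => ?_⟩
      · have := hI i hi; omega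
      · have := hJ j hj; omega

theorem facet_zero {n : ℕ} {I J : ℕ → Prop} (rI : ∀ i, I i → 1 ≤ i ∧ i + 2 ≤ n)
    (rJ : ∀ j, J j → 2 ≤ j ∧ j + 1 ≤ n) (neI : ∃ i, I i) (neJ : ∃ j, J j)
    (gap : ∀ i j, I i → J j → i + 2 ≤ j) :
    ∃ q, Fa n q q ∧ (∀ i, I i → i < q ∧ i ≠ q) ∧ (∀ j, J j → q < j ∧ j ≠ q) := by
  obtain ⟨M, hM, hmax⟩ := exists_max (P := I) (N := n) (fun i hi => by have := rI i hi; omega) neI
  obtain ⟨j1, hj1⟩ := neJ
  have a1 := rI M hM
  have a2 := rJ j1 hj1
  have a3 := gap M j1 hM hj1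
  refine ⟨M + 1, ⟨by omega, by omega, by omega, by omega, by omega, by omega⟩, fun i hi => ?_,
    fun j hj => ?_⟩
  · have := hmax i hi; omega
  · have := gap M j hM hj; omega

theorem Cl.gap {n : ℕ} {I J : ℕ → Prop} (h : Cl n I J) (hd : ∀ m, I m → J m → False) :
    ∀ i j, I i → J j → i + 2 ≤ j := by
  intro i j hi hj
  by_contra hc
  rcases Nat.lt_or_ge i j with h1 | h1
  · have : j = i + 1 := by omega
    subst this
    exact hd i hi (h.adj i hi hj).1
  · exact hd i hi (h.rev i j hi hj h1 i h1 (le_refl _)).2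

/-- a closed face is contained in a facet avoiding any given index outside its label -/
theorem exists_facet {n : ℕ} {s I J : ℕ → Prop} (h : Cl n I J) (hs : Sub s I J) (k : ℕ)
    (hk : k < n) (hks : ¬ s k) :
    ∃ p q, Fa n p q ∧ (k = p ∨ k = q ∨ (k = 0 ∧ p = q)) ∧ (∀ i, I i → i < q ∧ i ≠ p) ∧
      (∀ j, J j → p < j ∧ j ≠ q) := by
  rcases Nat.eq_zero_or_pos k with rfl | k1
  · obtain ⟨q, h1, h2, h3⟩ := facet_zero h.rI h.rJ h.neI h.neJ (h.gap (hs.2.2 hks))
    exact ⟨q, q, h1, Or.inr (Or.inr ⟨rfl, rfl⟩), h2, h3⟩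
  · obtain ⟨p, q, h1, h2, h3, h4⟩ := facet_weak (k := k) h.rI h.rJ h.neI h.neJ
      (fun M hM hmax hJ => by
        have := hmax _ (h.adj M hM hJ).2
        omega)
      (fun m hm hmin hI => by
        have h2 := h.rJ m hm
        have h3 : J (m - 1 + 1) := by rwa [Nat.sub_add_cancel (by omega)]
        have := hmin _ (h.adj (m - 1) hI h3).1
        omega)
      k1 hk (fun hI => hks (hs.1 k hI)) (fun hJ => hks (hs.2.1 k hJ))
      (fun i j hi hj h1 h2 => hks (hs.1 k (h.rev i j hi hj (by omega) k (by omega) (by omega)).1))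
    exact ⟨p, q, h1, h2.elim Or.inl (fun h => Or.inr (Or.inl h)), h3, h4⟩

/-- the conclusion of the centre lemma for a given pair `(x, y)` -/
def Center (n : ℕ) (s : ℕ → Prop) (x y : ℕ) : Prop :=
  Al n x y ∧ s x ∧ s y ∧ (x = y → s 0) ∧
    ∀ I J, Cl n I J → Sub s I J → ∀ k, k < n → ¬ s k →
      ∃ p q, Fa n p q ∧ (k = p ∨ k = q ∨ (k = 0 ∧ p = q)) ∧
        (∀ i, I i ∨ i = x → i < q ∧ i ≠ p) ∧ (∀ j, J j ∨ j = y → p < j ∧ j ≠ q)

theorem center_of {n x y : ℕ} {s : ℕ → Prop} (c1 : Al n x y) (c2 : s x) (c3 : s y)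
    (c4 : x = y → s 0)
    (t1 : ∀ I J, Cl n I J → Sub s I J → ∀ M, I M → x ≤ M → (∀ i, I i → i ≤ M) → M + 1 ≠ y)
    (t2 : ∀ I J, Cl n I J → Sub s I J → (∀ i, I i → i ≤ x) → ¬ J (x + 1))
    (b1 : ∀ I J, Cl n I J → Sub s I J → ∀ m, J m → m ≤ y → (∀ j, J j → m ≤ j) → m ≠ x + 1)
    (b2 : ∀ I J, Cl n I J → Sub s I J → (∀ j, J j → y ≤ j) → ¬ I (y - 1))
    (r1 : ∀ I J, Cl n I J → Sub s I J → ∀ k j, ¬ s k → J j → j < k → k < x → False)
    (r2 : ∀ I J, Cl n I J → Sub s I J → ∀ k i, ¬ s k → I i → y < k → k < i → False)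
    (z : ∀ I J, Cl n I J → Sub s I J → ¬ s 0 →
      (x + 2 ≤ y ∧ (∀ i, I i → i + 2 ≤ y) ∧ (∀ j, J j → x + 2 ≤ j))) :
    Center n s x y := by
  refine ⟨c1, c2, c3, c4, ?_⟩
  intro I J h hs k hk hks
  obtain ⟨a1, a2, a3⟩ := c1
  have rI : ∀ i, (I i ∨ i = x) → 1 ≤ i ∧ i + 2 ≤ n := by
    rintro i (hi | rfl)
    · exact h.rI i hi
    · omega
  have rJ : ∀ j, (J j ∨ j = y) → 2 ≤ j ∧ j + 1 ≤ n := by
    rintro i (hi | rfl)
    · exact h.rJ i hi
    · omega
  have neI : ∃ i, (I i ∨ i = x) := ⟨x, Or.inr rfl⟩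
  have neJ : ∃ i, (J i ∨ i = y) := ⟨y, Or.inr rfl⟩
  rcases Nat.eq_zero_or_pos k with rfl | k1
  · have hz := z I J h hs hks
    obtain ⟨q, h1, h2, h3⟩ := facet_zero (I := fun i => I i ∨ i = x) (J := fun j => J j ∨ j = y)
      rI rJ neI neJ (by
        rintro i j (hi | rfl) (hj | rfl)
        · exact h.gap (hs.2.2 hks) i j hi hj
        · exact hz.2.1 i hi
        · exact hz.2.2 j hj
        · exact hz.1)
    exact ⟨q, q, h1, Or.inr (Or.inr ⟨rfl, rfl⟩), h2, h3⟩
  · obtain ⟨p, q, h1, h2, h3, h4⟩ := facet_weak (k := k) (I := fun i => I i ∨ i = x)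
      (J := fun j => J j ∨ j = y) rI rJ neI neJ
      (by
        rintro M (hM | rfl) hmax (hJ | hJ)
        · have := hmax _ (Or.inl (h.adj M hM hJ).2)
          omega
        · exact t1 I J h hs M hM (hmax x (Or.inr rfl)) (fun i hi => hmax i (Or.inl hi)) hJ
        · exact t2 I J h hs (fun i hi => hmax i (Or.inl hi)) hJ
        · omega)
      (by
        rintro m (hm | rfl) hmin (hI | hI)
        · have h2 := h.rJ m hm
          have h3 : J (m - 1 + 1) := by rwa [Nat.sub_add_cancel (by omega)]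
          have := hmin _ (Or.inl (h.adj (m - 1) hI h3).1)
          omega
        · have h2 := h.rJ m hm
          exact b1 I J h hs m hm (hmin y (Or.inr rfl)) (fun j hj => hmin j (Or.inl hj)) (by omega)
        · exact b2 I J h hs (fun i hi => hmin i (Or.inl hi)) hI
        · omega)
      k1 hk
      (by
        rintro (hI | rfl)
        · exact hks (hs.1 k hI)
        · exact hks c2)
      (by
        rintro (hI | rfl)
        · exact hks (hs.2.1 k hI)
        · exact hks c3)
      (by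
        rintro i j (hi | rfl) (hj | rfl) e1 e2
        · exact hks (hs.1 k (h.rev i j hi hj (by omega) k (by omega) (by omega)).1)
        · exact r2 I J h hs k i hks hi e1 e2
        · exact r1 I J h hs k j hks hj e1 e2
        · omega)
    exact ⟨p, q, h1, h2.elim Or.inl (fun h => Or.inr (Or.inl h)), h3, h4⟩

/-- every sublevel complex has a centre -/
theorem exists_center {n : ℕ} (hn : 4 ≤ n) {s : ℕ → Prop} (hsn : ∀ k, s k → k < n)
    {I0 J0 : ℕ → Prop} (h0 : Cl n I0 J0) (s0 : Sub s I0 J0) : ∃ x y, Center n s x y := by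
  classical
  obtain ⟨i0, hi0⟩ := h0.neI
  obtain ⟨j0, hj0⟩ := h0.neJ
  have ri0 := h0.rI i0 hi0
  have rj0 := h0.rJ j0 hj0
  have si0 := s0.1 i0 hi0
  have sj0 := s0.2.1 j0 hj0
  obtain ⟨a, ⟨ha1, ha⟩, hamin⟩ := exists_min (P := fun k => 1 ≤ k ∧ s k) ⟨i0, ri0.1, si0⟩
  obtain ⟨b, ⟨hb1, hb⟩, hbmax⟩ := exists_max (P := fun k => 1 ≤ k ∧ s k) (N := n)
    (fun k hk => (hsn k hk.2).le) ⟨i0, ri0.1, si0⟩
  have hbn := hsn b hb
  have han := hsn a ha
  have LI : ∀ {I J : ℕ → Prop}, Cl n I J → Sub s I J → ∀ i, I i → a ≤ i ∧ i ≤ b ∧ s i := by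
    intro I J h hs i hi
    have h1 := h.rI i hi
    have h2 := hs.1 i hi
    exact ⟨hamin i ⟨h1.1, h2⟩, hbmax i ⟨h1.1, h2⟩, h2⟩
  have LJ : ∀ {I J : ℕ → Prop}, Cl n I J → Sub s I J → ∀ i, J i → a ≤ i ∧ i ≤ b ∧ s i := by
    intro I J h hs i hi
    have h1 := h.rJ i hi
    have h2 := hs.2.1 i hi
    exact ⟨hamin i ⟨by omega, h2⟩, hbmax i ⟨by omega, h2⟩, h2⟩
  by_cases hs0 : s 0
  swap
  · -- `0` is not in the label
    have g0 := h0.gap (s0.2.2 hs0) i0 j0 hi0 hj0
    have l1 := LI h0 s0 i0 hi0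
    have l2 := LJ h0 s0 j0 hj0
    refine ⟨a, b, center_of ⟨ha1, by omega, Or.inl (by omega)⟩ ha hb (by omega) ?_ ?_ ?_ ?_ ?_ ?_
      ?_⟩
    · intro I J h hs M hM _ _
      obtain ⟨j, hj⟩ := h.neJ
      have := h.gap (hs.2.2 hs0) M j hM hj
      have := LJ h hs j hj
      omega
    · intro I J h hs hall hJ
      obtain ⟨i, hi⟩ := h.neI
      have := h.gap (hs.2.2 hs0) i (a + 1) hi hJ
      have := LI h hs i hi
      omega
    · intro I J h hs m hm _ _
      obtain ⟨i, hi⟩ := h.neI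
      have := h.gap (hs.2.2 hs0) i m hi hm
      have := LI h hs i hi
      omega
    · intro I J h hs hall hI
      obtain ⟨j, hj⟩ := h.neJ
      have := h.gap (hs.2.2 hs0) (b - 1) j hI hj
      have := LJ h hs j hj
      omega
    · intro I J h hs k j _ hj h1 h2
      have := LJ h hs j hj
      omega
    · intro I J h hs k i _ hi h1 h2
      have := LI h hs i hi
      omega
    · intro I J h hs _
      obtain ⟨i, hi⟩ := h.neI
      obtain ⟨j, hj⟩ := h.neJ
      refine ⟨by omega, fun i hi => ?_, fun j hj => ?_⟩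
      · have := h.gap (hs.2.2 hs0) i j hi hj
        have := LJ h hs j hj
        omega
      · have := h.gap (hs.2.2 hs0) i j hi hj
        have := LI h hs i hi
        omega
  by_cases hall : ∀ k, 1 ≤ k → k < n → s k
  · -- everything is in the label
    refine ⟨1, n - 1, ⟨le_refl _, by omega, Or.inl (by omega)⟩, hall _ (by omega) (by omega),
      hall _ (by omega) (by omega), fun _ => hs0, ?_⟩
    intro I J h hs k hk hks
    exfalso
    rcases Nat.eq_zero_or_pos k with rfl | k1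
    · exact hks hs0
    · exact hks (hall k k1 hk)
  push Not at hall
  obtain ⟨k0, hk01, hk0n, hk0⟩ := hall
  obtain ⟨c, ⟨hac, hc⟩, hcmin⟩ := exists_min (P := fun k => a ≤ k ∧ ¬ s k)
    ⟨n, by omega, fun h => absurd (hsn n h) (lt_irrefl _)⟩
  obtain ⟨d, ⟨hdb, hd⟩, hdmax⟩ := exists_max (P := fun k => k ≤ b ∧ ¬ (1 ≤ k ∧ s k)) (N := b)
    (fun k hk => hk.1) ⟨0, by omega, by omega⟩
  have hca : c ≠ a := by rintro rfl; exact hc ha
  have hdb' : d ≠ b := by rintro rfl; exact hd ⟨hb1, hb⟩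
  have hlow : ∀ k, a ≤ k → k < c → s k := by
    intro k h1 h2
    by_contra h3
    have := hcmin k ⟨h1, h3⟩
    omega
  have hhigh : ∀ k, d < k → k ≤ b → s k := by
    intro k h1 h2
    by_contra h3
    have := hdmax k ⟨h2, fun h => h3 h.2⟩
    omega
  by_cases hcd : c ≤ d
  · -- two different components
    have hx : s (c - 1) := hlow (c - 1) (by omega) (by omega)
    have hy : s (d + 1) := hhigh (d + 1) (by omega) (by omega)
    refine ⟨c - 1, d + 1, center_of ⟨by omega, by omega, Or.inl (by omega)⟩ hx hy (by omega)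
      ?_ ?_ ?_ ?_ ?_ ?_ ?_⟩
    · intro I J h hs M hM _ _ he
      have h1 := LI h hs M hM
      have h2 : M = d := by omega
      subst h2
      exact hd ⟨by omega, h1.2.2⟩
    · intro I J h hs _ hJ
      rw [show c - 1 + 1 = c by omega] at hJ
      exact hc (LJ h hs c hJ).2.2
    · intro I J h hs m hm _ _ he
      rw [show c - 1 + 1 = c by omega] at he
      subst he
      exact hc (LJ h hs m hm).2.2
    · intro I J h hs _ hI
      rw [show d + 1 - 1 = d by omega] at hI
      have := LI h hs d hI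
      exact hd ⟨by omega, this.2.2⟩
    · intro I J h hs k j hk hj h1 h2
      have := LJ h hs j hj
      exact hk (hlow k (by omega) (by omega))
    · intro I J h hs k i hk hi h1 h2
      have := LI h hs i hi
      exact hk (hhigh k (by omega) (by omega))
    · intro I J h hs h1
      exact absurd hs0 h1
  · -- a single component
    have hcb : b < c := by
      by_contra h1
      exact hc (hhigh c (by omega) (by omega))
    have hda : d < a := by
      by_contra h1
      exact hd ⟨by omega, hlow d (by omega) (by omega)⟩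
    have hseg : ∀ k, a ≤ k → k ≤ b → s k := fun k h1 h2 => hlow k h1 (by omega)
    have l2 := LJ h0 s0 j0 hj0
    have l1 := LI h0 s0 i0 hi0
    by_cases hb2 : b + 2 ≤ n
    · refine ⟨b, b, center_of ⟨hb1, by omega, Or.inr ⟨rfl, by omega, hb2⟩⟩ hb hb (fun _ => hs0)
        ?_ ?_ ?_ ?_ ?_ ?_ ?_⟩
      · intro I J h hs M hM h1 _
        omega
      · intro I J h hs _ hJ
        have := LJ h hs _ hJ
        omega
      · intro I J h hs m hm h1 _
        omega
      · intro I J h hs h1 hI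
        obtain ⟨j, hj⟩ := h.neJ
        have h2 := h1 j hj
        have h3 := LJ h hs j hj
        have h4 : j = b := by omega
        subst h4
        have h5 : J (j - 1 + 1) := by rwa [Nat.sub_add_cancel (by omega)]
        have := h1 _ (h.adj (j - 1) hI h5).1
        omega
      · intro I J h hs k j hk hj h1 h2
        have := LJ h hs j hj
        exact hk (hseg k (by omega) (by omega))
      · intro I J h hs k i hk hi h1 h2
        have := LI h hs i hi
        omega
      · intro I J h hs h1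
        exact absurd hs0 h1
    · have hk0a : k0 < a := by
        by_contra h1
        exact hk0 (hseg k0 (by omega) (by omega))
      refine ⟨a, a, center_of ⟨ha1, by omega, Or.inr ⟨rfl, by omega, by omega⟩⟩ ha ha
        (fun _ => hs0) ?_ ?_ ?_ ?_ ?_ ?_ ?_⟩
      · intro I J h hs M hM h1 _
        omega
      · intro I J h hs h1 hJ
        obtain ⟨i, hi⟩ := h.neI
        have h2 := h1 i hi
        have h3 := LI h hs i hi
        have h4 : i = a := by omega
        subst h4
        have := h1 _ (h.adj i hi hJ).2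
        omega
      · intro I J h hs m hm h1 _
        omega
      · intro I J h hs _ hI
        have h1 := h.rI _ hI
        have := LI h hs _ hI
        omega
      · intro I J h hs k j hk hj h1 h2
        have := LJ h hs j hj
        omega
      · intro I J h hs k i hk hi h1 h2
        have := LI h hs i hi
        exact hk (hseg k (by omega) (by omega))
      · intro I J h hs h1
        exact absurd hs0 h1

end Pool.Helper81.JN
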