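import Mathlib

/-!
# Polytopal minimal resolutions of the Stanley-Reisner ideal `J_n` of the `n`-cycle

The vertices of the `n`-cycle are the elements of `Fin n`.
-/

namespace Pool.Helper81.JN

/-- the pair `{i, j}` is a diagonal: `i ≠ j` and `j - i` is not congruent to `1` or `-1` mod `n` -/
def IsDiagonal {n : ℕ} (i j : Fin n) : Prop :=
  i ≠ j ∧ ¬ ((j : ℤ) - (i : ℤ) ≡ 1 [ZMOD (n : ℤ)]) ∧ ¬ ((j : ℤ) - (i : ℤ) ≡ -1 [ZMOD (n : ℤ)])

/-- The minimal generators `x_i x_j` of `J_n`: a diagonal `{i, j}` is written as `(i, j)`
with `i < j`. -/
def Diag (n : ℕ) : Type := {e : Fin n × Fin n // e.1 < e.2 ∧ IsDiagonal e.1 e.2}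

noncomputable instance (n : ℕ) : Fintype (Diag n) := by
  classical
  unfold Diag
  infer_instance

/-- the exponent vector of the generator `x_i x_j` -/
def gen {n : ℕ} (e : Diag n) : Fin n → ℕ := Pi.single e.1.1 1 + Pi.single e.1.2 1

section

variable {n d : ℕ}

/-- the polytope with vertices `v e` -/
def polytope (v : Diag n → (Fin d → ℝ)) : Set (Fin d → ℝ) := convexHull ℝ (Set.range v)

/-- a nonempty face of a polytope `P` (`P` itself is a face) -/
def IsFace (P F : Set (Fin d → ℝ)) : Prop := F.Nonempty ∧ IsExposed ℝ P F

open Classical in
/-- the label of a face: the exponent vector of the lcm of the generators `x_i x_j` attached to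
its vertices -/
noncomputable def label (v : Diag n → (Fin d → ℝ)) (F : Set (Fin d → ℝ)) : Fin n → ℕ :=
  (Finset.univ.filter fun e => v e ∈ F).sup gen

/-- the subcomplex `X_{≤ σ}`: the union of the faces whose label is at most `σ` -/
def sublevel (v : Diag n → (Fin d → ℝ)) (σ : Fin n → ℕ) : Set (Fin d → ℝ) :=
  ⋃ F ∈ {F | IsFace (polytope v) F ∧ label v F ≤ σ}, F

/-- The conditions for the polytope spanned by the points `v e` (the vertex `v e` is labelled by
the generator `x_i x_j`, `e = (i, j)`) to support a minimal free resolution of `J_n` over every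
field: every subcomplex `X_{≤ σ}` is empty or contractible (hence acyclic over every field), and
nested distinct faces have different labels. -/
structure SupportsMinimalResolution (v : Diag n → (Fin d → ℝ)) : Prop where
  /-- different generators give different points -/
  injective : Function.Injective v
  /-- the vertices of the polytope are exactly the points `v e` -/
  vertices : (polytope v).extremePoints ℝ = Set.range v
  /-- every subcomplex `X_{≤ σ}` is empty or contractible -/
  acyclic : ∀ σ : Fin n → ℕ, sublevel v σ = ∅ ∨ ContractibleSpace (sublevel v σ)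
  /-- nested distinct faces have different labels -/
  minimal : ∀ F G, IsFace (polytope v) F → IsFace (polytope v) G → F ⊂ G →
    label v F ≠ label v G

end

end Pool.Helper81.JN
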