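import Pool.Agent.Helper81.JN.Main

namespace Pool.Helper81.JN

open Finset

section Poly

variable {n : ℕ} (hn : 4 ≤ n)
include hn

/-- if the first weight vanishes then every vertex is tight -/
theorem tight_of_zero {η : ℕ → ℝ} (h : Good n η) (h0 : η 1 = 0) {i j : ℕ} (hij : Al n i j) :
    X η i + Y η j = 0 := by
  have hz := h.zero_of hn h0
  have := XY_congr (η := η) (θ := fun _ => 0) (n := n) hz hij
  rw [this]
  simp [X, Y, S]

/-- the union of all faces with label below a vector with full support is the whole polytope -/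
theorem sublevel_full {σ : Fin n → ℕ} (h : ∀ k, 1 ≤ σ k) :
    sublevel (vv n) σ = polytope (vv n) := by
  have e0 : ∃ e : Diag n, True := by
    obtain ⟨e, _⟩ := exists_diag (n := n) (i := 1) (j := n - 1)
      ⟨le_refl _, by omega, Or.inl (by omega)⟩
    exact ⟨e, trivial⟩
  obtain ⟨e, _⟩ := e0
  apply Set.Subset.antisymm
  · intro x hx
    simp only [sublevel, Set.mem_iUnion, Set.mem_ofPred_eq] at hx
    obtain ⟨F, ⟨hF, _⟩, hxF⟩ := hx
    exact hF.2.subset hxF
  · intro x hx
    simp only [sublevel, Set.mem_iUnion, Set.mem_ofPred_eq]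
    refine ⟨polytope (vv n), ⟨⟨⟨x, hx⟩, IsExposed.refl _⟩, ?_⟩, hx⟩
    intro k
    have h2 := h k
    rcases (label_apply hn (polytope (vv n)) k).1 with h1 | h1
    · rw [h1]; exact Nat.zero_le _
    · rw [h1]; exact h2

/-- star convexity of the sublevel complexes -/
theorem sublevel_star {σ : Fin n → ℕ} {k0 : Fin n} (hk0 : σ k0 = 0)
    (hne : (sublevel (vv n) σ).Nonempty) :
    ∃ x0 ∈ sublevel (vv n) σ, StarConvex ℝ x0 (sublevel (vv n) σ) := by
  classical
  set s : ℕ → Prop := fun k => ∃ h : k < n, 1 ≤ σ ⟨k, h⟩ with hs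
  have hsn : ∀ k, s k → k < n := fun k hk => hk.1
  have hk0s : ¬ s k0.val := by
    rintro ⟨_, h2⟩
    have : σ ⟨k0.val, k0.isLt⟩ = 0 := hk0
    omega
  -- every face of the sublevel complex gives a closed pair
  have key : ∀ x ∈ sublevel (vv n) σ, ∃ η : ℕ → ℝ, ∃ (c : ℝ) (l : (Fin (n - 3) → ℝ) →ₗ[ℝ] ℝ),
      Good n η ∧ (∀ i j, Al n i j → wt n i j * (c + l (pt n i j)) = X η i + Y η j) ∧
      x ∈ polytope (vv n) ∧ c + l x = 0 ∧ η 1 ≠ 0 ∧ (∀ k, TL n η k → s k) ∧
      ∃ i0 j0, Al n i0 j0 ∧ X η i0 + Y η j0 = 0 := by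
    intro x hx
    simp only [sublevel, Set.mem_iUnion, Set.mem_ofPred_eq] at hx
    obtain ⟨F, ⟨hF, hlab⟩, hxF⟩ := hx
    obtain ⟨c, l, hnn, hFeq⟩ := face_data hF
    have hval : ∀ i j, Al n i j → wt n i j * (c + l (pt n i j)) = X (et c l) i + Y (et c l) j :=
      fun i j hij => val_eq hn hij c l
    have hgood := good_of_nonneg hn hnn
    have hTL : ∀ k, TL n (et c l) k → s k := by
      intro k hk
      have hkn : k < n := by
        obtain ⟨i, j, hij, _, h2⟩ := hk
        have := hij.bds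
        omega
      refine ⟨hkn, ?_⟩
      have h1 := (label_TL hn hval ⟨k, hkn⟩).2 hk
      have h2 := hlab ⟨k, hkn⟩
      rw [hFeq] at h2
      change label (vv n) {x ∈ polytope (vv n) | c + l x = 0} ⟨k, hkn⟩ ≤ _ at h2
      rw [h1] at h2
      exact h2
    have hx' : x ∈ polytope (vv n) ∧ c + l x = 0 := by
      rw [hFeq] at hxF
      exact hxF
    have hne0 : et c l 1 ≠ 0 := by
      intro h0
      apply hk0s
      apply hTL
      by_cases h1 : k0.val = 0
      · have h2 : Al n 2 2 := ⟨by omega, by omega, Or.inr ⟨rfl, le_refl _, by omega⟩⟩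
        exact ⟨2, 2, h2, tight_of_zero hn hgood h0 h2, Or.inr (Or.inr ⟨h1, rfl⟩)⟩
      · have hlt := k0.isLt
        by_cases h3 : k0.val + 2 ≤ n - 1
        · have h2 : Al n k0.val (n - 1) := ⟨by omega, by omega, Or.inl (by omega)⟩
          exact ⟨_, _, h2, tight_of_zero hn hgood h0 h2, Or.inl rfl⟩
        · have h2 : Al n 1 k0.val ∨ Al n k0.val k0.val := by
            by_cases h4 : 3 ≤ k0.val
            · exact Or.inl ⟨le_refl _, by omega, Or.inl (by omega)⟩
            · exact Or.inr ⟨by omega, by omega, Or.inr ⟨rfl, by omega, by omega⟩⟩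
          rcases h2 with h2 | h2
          · exact ⟨_, _, h2, tight_of_zero hn hgood h0 h2, Or.inr (Or.inl rfl)⟩
          · exact ⟨_, _, h2, tight_of_zero hn hgood h0 h2, Or.inl rfl⟩
    obtain ⟨e, he⟩ := exists_zero_vertex hnn hx'.1 hx'.2
    exact ⟨et c l, c, l, hgood, hval, hx'.1, hx'.2, hne0, hTL, lo e, hi e, al_diag e,
      (sign_iff hn hval e).2.1 he⟩
  -- faces from functionals
  have mem_of : ∀ (θ : ℕ → ℝ) (c : ℝ) (l : (Fin (n - 3) → ℝ) →ₗ[ℝ] ℝ), Good n θ →
      (∀ i j, Al n i j → wt n i j * (c + l (pt n i j)) = X θ i + Y θ j) →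
      (∀ k, k < n → TL n θ k → s k) →
      {x ∈ polytope (vv n) | c + l x = 0} ⊆ sublevel (vv n) σ := by
    intro θ c l hθ hval hTL x hx
    simp only [sublevel, Set.mem_iUnion, Set.mem_ofPred_eq]
    refine ⟨{x ∈ polytope (vv n) | c + l x = 0}, ⟨face_of_data (v := vv n) ?_ ⟨x, hx⟩, ?_⟩, hx⟩
    · intro e
      exact (sign_iff hn hval e).1.2 (hθ.nn _ _ (al_diag e))
    · intro k
      rcases (label_apply hn {x ∈ polytope (vv n) | c + l x = 0} k).1 with h1 | h1
      · rw [h1]
        exact Nat.zero_le _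
      · have h2 := (label_TL hn hval k).1 h1
        obtain ⟨_, h3⟩ := hTL _ k.isLt h2
        rw [h1]
        exact h3
  obtain ⟨x1, hx1⟩ := hne
  obtain ⟨η1, c1, l1, g1, v1, _, _, p1, t1, i1, j1, al1, z1⟩ := key x1 hx1
  obtain ⟨x, y, hC⟩ := exists_center hn hsn (g1.cl hn p1 al1 z1) (g1.sub hn p1 al1 z1 t1)
  obtain ⟨hxy, _, _, _, hfac⟩ := hC
  obtain ⟨e0, he1, he2⟩ := exists_diag hxy
  have star : ∀ z ∈ sublevel (vv n) σ, segment ℝ (vv n e0) z ⊆ sublevel (vv n) σ := by
    intro z hz
    obtain ⟨η, c, l, g, v, hzP, hz0, p, t, i, j, al, z0⟩ := key z hz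
    have hcl := g.cl hn p al z0
    have hsub := g.sub hn p al z0 t
    obtain ⟨θ, hθ, h1, h2⟩ := combine hn (s := s)
      (T := fun a b => (Al n a b ∧ X η a + Y η b = 0) ∨ (a = x ∧ b = y))
      (by
        rintro a b (h | ⟨rfl, rfl⟩)
        · exact h.1
        · exact hxy)
      (by
        intro k hk hks
        obtain ⟨P, Q, b1, b2, b3, b4⟩ := hfac _ _ hcl hsub k hk hks
        refine ⟨P, Q, b1, b2, ?_⟩
        rintro a b (⟨hab, h⟩ | ⟨rfl, rfl⟩)
        · obtain ⟨a1, a2, a3, a4⟩ := hab.bds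
          have h5 := (g.tight_iff hn al z0 a1 a2 a3 a4).1 h
          have h6 := b3 a (Or.inl ⟨a1, a2, h5.1⟩)
          have h7 := b4 b (Or.inl ⟨a3, a4, h5.2⟩)
          exact ⟨h6.1, h6.2, h7.1, h7.2⟩
        · have h6 := b3 a (Or.inr rfl)
          have h7 := b4 b (Or.inr rfl)
          exact ⟨h6.1, h6.2, h7.1, h7.2⟩)
    obtain ⟨c', l', hval'⟩ := exists_functional hn hθ.bd
    have hsubset := mem_of θ c' l' hθ hval' h2
    have hconv := convex_zero (v := vv n) c' l'
    have m1 : vv n e0 ∈ {x ∈ polytope (vv n) | c' + l' x = 0} := by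
      refine ⟨subset_convexHull ℝ _ ⟨e0, rfl⟩, (sign_iff hn hval' e0).2.2 ?_⟩
      rw [he1, he2]
      exact h1 _ _ (Or.inr ⟨rfl, rfl⟩)
    have m2 : z ∈ {x ∈ polytope (vv n) | c' + l' x = 0} := by
      refine ⟨hzP, ?_⟩
      refine zero_hull (v := vv n) (c := c) (l := l) ?_ ?_ z hzP hz0
      · intro e
        exact (sign_iff hn v e).1.2 (g.nn _ _ (al_diag e))
      · intro e he
        have h5 := (sign_iff hn v e).2.1 he
        exact (sign_iff hn hval' e).2.2 (h1 _ _ (Or.inl ⟨al_diag e, h5⟩))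
    exact (hconv.segment_subset m1 m2).trans hsubset
  refine ⟨vv n e0, star x1 hx1 (left_mem_segment ℝ _ _), ?_⟩
  rw [starConvex_iff_segment_subset]
  exact fun z hz => star z hz

theorem sublevel_contractible (σ : Fin n → ℕ) :
    sublevel (vv n) σ = ∅ ∨ ContractibleSpace (sublevel (vv n) σ) := by
  rcases Set.eq_empty_or_nonempty (sublevel (vv n) σ) with h | h
  · exact Or.inl h
  · right
    by_cases hall : ∀ k, 1 ≤ σ k
    · rw [sublevel_full hn hall] at h ⊢
      exact (convex_convexHull ℝ _).contractibleSpace h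
    · push Not at hall
      obtain ⟨k0, hk0⟩ := hall
      obtain ⟨x0, _, hx0⟩ := sublevel_star hn (k0 := k0) (by omega) h
      exact hx0.contractibleSpace h

theorem label_ne (F G : Set (Fin (n - 3) → ℝ)) (hF : IsFace (polytope (vv n)) F)
    (hG : IsFace (polytope (vv n)) G) (hFG : F ⊂ G) : label (vv n) F ≠ label (vv n) G := by
  intro hlab
  obtain ⟨c, l, hnn, hFeq⟩ := face_data hF
  obtain ⟨c', l', hnn', hGeq⟩ := face_data hG
  have hval : ∀ i j, Al n i j → wt n i j * (c + l (pt n i j)) = X (et c l) i + Y (et c l) j :=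
    fun i j hij => val_eq hn hij c l
  have hval' : ∀ i j, Al n i j →
      wt n i j * (c' + l' (pt n i j)) = X (et c' l') i + Y (et c' l') j :=
    fun i j hij => val_eq hn hij c' l'
  have g := good_of_nonneg hn hnn
  have g' := good_of_nonneg hn hnn'
  apply hFG.2
  have hsub : ∀ e : Diag n, X (et c l) (lo e) + Y (et c l) (hi e) = 0 →
      X (et c' l') (lo e) + Y (et c' l') (hi e) = 0 := by
    intro e he
    have h1 : vv n e ∈ F := by
      rw [hFeq]
      exact ⟨subset_convexHull ℝ _ ⟨e, rfl⟩, (sign_iff hn hval e).2.2 he⟩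
    have h2 := hFG.1 h1
    rw [hGeq] at h2
    exact (sign_iff hn hval' e).2.1 h2.2
  have hback : ∀ i j, Al n i j → X (et c' l') i + Y (et c' l') j = 0 →
      X (et c l) i + Y (et c l) j = 0 := by
    by_cases h0 : et c l 1 = 0
    · intro i j hij _
      exact tight_of_zero hn g h0 hij
    · obtain ⟨x, hx⟩ := hF.1
      rw [hFeq] at hx
      obtain ⟨e, he⟩ := exists_zero_vertex hnn hx.1 hx.2
      refine comb_minimal hn g g' h0 (al_diag e) ((sign_iff hn hval e).2.1 he) ?_ ?_
      · intro i j hij h1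
        obtain ⟨e', rfl, rfl⟩ := exists_diag hij
        exact hsub e' h1
      · intro k hk hTL
        have h1 := (label_TL hn hval' ⟨k, hk⟩).2 hTL
        rw [hFeq, hGeq] at hlab
        have h2 := congrFun hlab ⟨k, hk⟩
        apply (label_TL hn hval ⟨k, hk⟩).1
        exact h2.trans h1
  intro x hx
  rw [hGeq] at hx
  rw [hFeq]
  refine ⟨hx.1, zero_hull (v := vv n) hnn' ?_ x hx.1 hx.2⟩
  intro e he
  exact (sign_iff hn hval e).2.2 (hback _ _ (al_diag e) ((sign_iff hn hval' e).2.1 he))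

/-- the main theorem -/
theorem supports : SupportsMinimalResolution (vv n) where
  injective := vv_injective hn
  vertices := Set.Subset.antisymm extremePoints_convexHull_subset (by
    rintro _ ⟨e, rfl⟩
    exact vv_extreme hn e)
  acyclic := sublevel_contractible hn
  minimal := label_ne hn

theorem affineSpan_top : affineSpan ℝ (Set.range (vv n)) = ⊤ := by
  by_contra hne
  obtain ⟨e0, _⟩ := exists_diag (n := n) (i := 1) (j := n - 1)
    ⟨le_refl _, by omega, Or.inl (by omega)⟩
  have hmem0 : vv n e0 ∈ affineSpan ℝ (Set.range (vv n)) := subset_affineSpan ℝ _ ⟨e0, rfl⟩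
  have hdir : (affineSpan ℝ (Set.range (vv n))).direction < ⊤ := by
    rw [lt_top_iff_ne_top]
    intro h
    exact hne ((AffineSubspace.direction_eq_top_iff_of_nonempty ⟨_, hmem0⟩).1 h)
  obtain ⟨f, hf0, hf⟩ := Submodule.exists_le_ker_of_lt_top _ hdir
  have hz : ∀ e, - f (vv n e0) + f (vv n e) = 0 := by
    intro e
    have h1 : vv n e -ᵥ vv n e0 ∈ (affineSpan ℝ (Set.range (vv n))).direction :=
      AffineSubspace.vsub_mem_direction (subset_affineSpan ℝ _ ⟨e, rfl⟩) hmem0
    have h2 := hf h1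
    rw [LinearMap.mem_ker, vsub_eq_sub, map_sub] at h2
    linarith
  set c : ℝ := - f (vv n e0)
  have hval : ∀ i j, Al n i j → wt n i j * (c + f (pt n i j)) = X (et c f) i + Y (et c f) j :=
    fun i j hij => val_eq hn hij c f
  have g := good_of_nonneg hn (c := c) (l := f) (fun e => (hz e).ge)
  have ht : ∀ i j, Al n i j → X (et c f) i + Y (et c f) j = 0 := by
    intro i j hij
    obtain ⟨e, rfl, rfl⟩ := exists_diag hij
    exact (sign_iff hn hval e).2.1 (hz e)
  have hmid : ∀ m, 2 ≤ m → m + 2 ≤ n → et c f m = 0 := by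
    intro m h2 h3
    have h1 := ht m m ⟨by omega, by omega, Or.inr ⟨rfl, h2, h3⟩⟩
    rw [XY_self _ (by omega)] at h1
    linarith
  have h1 : et c f 1 = 0 := by
    have key := ht 1 (n - 1) ⟨le_refl _, by omega, Or.inl (by omega)⟩
    have e1 : S (et c f) 1 = et c f 1 := by
      have := S_succ (et c f) 0
      simpa [S_zero] using this
    have e2 : S (et c f) (n - 2) = et c f 1 := by
      unfold S
      rw [Finset.sum_eq_single 1]
      · intro b hb hb1
        simp only [Finset.mem_Icc] at hb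
        exact hmid b (by omega) (by omega)
      · intro h
        simp only [Finset.mem_Icc] at h
        omega
    unfold X Y at key
    rw [← g.bd, show n - 1 - 1 = n - 2 by omega, e1, e2] at key
    linarith
  have hc : c = 0 := by
    have h2 : et c f 1 = c * phi n 1 := by
      unfold et
      rw [if_neg (by omega), add_zero]
    rw [h2] at h1
    exact (mul_eq_zero.1 h1).resolve_right (phi_pos n 1).ne'
  apply hf0
  apply LinearMap.ext
  intro x
  rw [LinearMap.pi_apply_eq_sum_univ f x, LinearMap.zero_apply]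
  apply Finset.sum_eq_zero
  intro k _
  have h2 := hmid (k.val + 2) (by omega) (by have := k.isLt; omega)
  unfold et at h2
  rw [hc, zero_mul, zero_add, if_pos (by have := k.isLt; omega)] at h2
  unfold fc at h2
  rw [dif_pos (by simp only [Nat.add_sub_cancel]; exact k.isLt)] at h2
  have h3 : f (fun j => if k = j then 1 else 0) = 0 := h2
  rw [h3, smul_zero]

end Poly

end Pool.Helper81.JN
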