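import Pool.Agent.Helper81.JN.Link
import Pool.Agent.Helper81.JN.Defs

namespace Pool.Helper81.JN

open Finset

/-! ### diagonals and index pairs -/

section Diagonals

variable {n : ℕ}

/-- first index of a diagonal -/
def lo (e : Diag n) : ℕ := if e.1.1.val = 0 then e.1.2.val else e.1.1.val

/-- second index of a diagonal -/
def hi (e : Diag n) : ℕ := e.1.2.val

theorem not_modEq_of_lt {a b : ℤ} {n : ℤ} (h1 : a ≠ b) (h2 : a - b < n) (h3 : -n < a - b) :
    ¬ (a ≡ b [ZMOD n]) := by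
  intro h
  have h4 : n ∣ b - a := h.dvd
  have h5 : b - a = 0 := by
    apply Int.eq_zero_of_abs_lt_dvd h4
    rw [abs_lt]
    constructor <;> linarith
  omega

theorem diag_iff {i j : Fin n} (h : i < j) :
    IsDiagonal i j ↔ (j.val ≠ i.val + 1 ∧ ¬ (i.val = 0 ∧ j.val + 1 = n)) := by
  have hi := i.isLt
  have hj := j.isLt
  have hij : i.val < j.val := h
  unfold IsDiagonal
  constructor
  · rintro ⟨_, h2, h3⟩
    constructor
    · intro h4
      apply h2
      rw [h4]
      push_cast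
      rw [add_sub_cancel_left]
    · rintro ⟨h4, h5⟩
      apply h3
      rw [h4]
      have : (j : ℤ) = n - 1 := by omega
      rw [this, Int.modEq_iff_dvd]
      exact ⟨-1, by push_cast; ring⟩
  · rintro ⟨h2, h3⟩
    refine ⟨h.ne, ?_, ?_⟩
    · apply not_modEq_of_lt <;> omega
    · apply not_modEq_of_lt <;> omega

theorem al_diag (e : Diag n) : Al n (lo e) (hi e) := by
  obtain ⟨⟨a, b⟩, h1, h2⟩ := e
  have h3 : a.val < b.val := h1
  have ha := a.isLt
  have hb := b.isLt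
  have h2' := (diag_iff h1).1 h2
  dsimp only at h2'
  simp only [lo, hi]
  split_ifs with h4
  · refine ⟨by omega, by omega, Or.inr ⟨rfl, ?_, ?_⟩⟩ <;> omega
  · refine ⟨by omega, by omega, Or.inl ?_⟩
    omega

theorem exists_diag {i j : ℕ} (h : Al n i j) : ∃ e : Diag n, lo e = i ∧ hi e = j := by
  obtain ⟨h1, h2, h3⟩ := h
  rcases h3 with h3 | ⟨rfl, h3, h4⟩
  · have hlt : (⟨i, by omega⟩ : Fin n) < ⟨j, by omega⟩ := by
      show i < j
      omega
    refine ⟨⟨(⟨i, by omega⟩, ⟨j, by omega⟩), hlt, (diag_iff hlt).2 ⟨?_, ?_⟩⟩, ?_, rfl⟩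
    · show j ≠ i + 1
      omega
    · show ¬ (i = 0 ∧ j + 1 = n)
      omega
    · simp only [lo]
      rw [if_neg (by omega)]
  · have hlt : (⟨0, by omega⟩ : Fin n) < ⟨i, by omega⟩ := by
      show 0 < i
      omega
    refine ⟨⟨(⟨0, by omega⟩, ⟨i, by omega⟩), hlt, (diag_iff hlt).2 ⟨?_, ?_⟩⟩, ?_, rfl⟩
    · show i ≠ 0 + 1
      omega
    · show ¬ (0 = 0 ∧ i + 1 = n)
      omega
    · simp [lo]

theorem gen_apply (e : Diag n) (k : Fin n) :
    gen e k = if (k.val = lo e ∨ k.val = hi e ∨ (k.val = 0 ∧ lo e = hi e)) then 1 else 0 := by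
  obtain ⟨⟨a, b⟩, h1, h2⟩ := e
  have h3 : a.val < b.val := h1
  simp only [gen, lo, hi, Pi.add_apply, Pi.single_apply, Fin.ext_iff]
  split_ifs <;> omega

end Diagonals

end Pool.Helper81.JN
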