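import Pool.Agent.Helper81.JN.Comb

namespace Pool.Helper81.JN

/-- `k` belongs to the label of the set of tight vertices of `η` -/
def TL (n : ℕ) (η : ℕ → ℝ) (k : ℕ) : Prop :=
  ∃ i j, Al n i j ∧ X η i + Y η j = 0 ∧ (k = i ∨ k = j ∨ (k = 0 ∧ i = j))

theorem Al.bds {n i j : ℕ} (h : Al n i j) : 1 ≤ i ∧ i + 1 ≤ n ∧ 1 ≤ j ∧ j + 1 ≤ n := by
  obtain ⟨h1, h2, h3⟩ := h
  omega

section

variable {n : ℕ} (hn : 4 ≤ n) {η : ℕ → ℝ} (h : Good n η)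
include hn h

theorem Good.min_X {i0 j0 : ℕ} (hj1 : 1 ≤ j0) (hj2 : j0 + 1 ≤ n) (ht : X η i0 + Y η j0 = 0)
    {i : ℕ} (hi1 : 1 ≤ i) (hi2 : i + 1 ≤ n) : X η i0 ≤ X η i := by
  have := h.all_nonneg hn hi1 hi2 hj1 hj2
  linarith

theorem Good.min_Y {i0 j0 : ℕ} (hj1 : 1 ≤ i0) (hj2 : i0 + 1 ≤ n) (ht : X η i0 + Y η j0 = 0)
    {i : ℕ} (hi1 : 1 ≤ i) (hi2 : i + 1 ≤ n) : Y η j0 ≤ Y η i := by
  have := h.all_nonneg hn hj1 hj2 hi1 hi2
  linarith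

theorem Good.tight_iff {i0 j0 : ℕ} (h0 : Al n i0 j0) (ht : X η i0 + Y η j0 = 0) {i j : ℕ}
    (hi1 : 1 ≤ i) (hi2 : i + 1 ≤ n) (hj1 : 1 ≤ j) (hj2 : j + 1 ≤ n) :
    X η i + Y η j = 0 ↔ (X η i = X η i0 ∧ Y η j = Y η j0) := by
  obtain ⟨a1, a2, a3, a4⟩ := h0.bds
  have h1 := h.min_X hn a3 a4 ht hi1 hi2
  have h2 := h.min_Y hn a1 a2 ht hj1 hj2
  constructor
  · intro h3; constructor <;> linarith
  · rintro ⟨h3, h4⟩; linarith

theorem Good.cl (hpos : η 1 ≠ 0) {i0 j0 : ℕ} (h0 : Al n i0 j0) (ht : X η i0 + Y η j0 = 0) :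
    Cl n (fun i => 1 ≤ i ∧ i + 1 ≤ n ∧ X η i = X η i0)
      (fun j => 1 ≤ j ∧ j + 1 ≤ n ∧ Y η j = Y η j0) := by
  obtain ⟨a1, a2, a3, a4⟩ := h0.bds
  have hnn := h.nonneg hn
  have self0 : ∀ m, 1 ≤ m → m + 1 ≤ n → η m = 0 →
      (1 ≤ m ∧ m + 1 ≤ n ∧ X η m = X η i0) ∧ (1 ≤ m ∧ m + 1 ≤ n ∧ Y η m = Y η j0) := by
    intro m h1 h2 h3
    have h4 : X η m + Y η m = 0 := by rw [XY_self η h1, h3]; ring
    have := (h.tight_iff hn h0 ht h1 h2 h1 h2).1 h4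
    exact ⟨⟨h1, h2, this.1⟩, ⟨h1, h2, this.2⟩⟩
  have rev : ∀ i j, (1 ≤ i ∧ i + 1 ≤ n ∧ X η i = X η i0) →
      (1 ≤ j ∧ j + 1 ≤ n ∧ Y η j = Y η j0) → j ≤ i → ∀ m, j ≤ m → m ≤ i → η m = 0 := by
    rintro i j ⟨b1, b2, b3⟩ ⟨c1, c2, c3⟩ hji
    exact h.rev_zero hn b2 c1 hji (by rw [b3, c3]; exact ht)
  have hbd := h.bd
  refine ⟨?_, ?_, ⟨i0, a1, a2, rfl⟩, ⟨j0, a3, a4, rfl⟩, ?_, ?_⟩
  · rintro i ⟨b1, b2, b3⟩
    refine ⟨b1, ?_⟩
    by_contra hc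
    have hi : i = n - 1 := by omega
    have := rev i j0 ⟨b1, b2, b3⟩ ⟨a3, a4, rfl⟩ (by omega) i (by omega) (le_refl _)
    rw [hi, ← hbd] at this
    exact hpos this
  · rintro j ⟨b1, b2, b3⟩
    refine ⟨?_, b2⟩
    by_contra hc
    have hj : j = 1 := by omega
    have := rev i0 j ⟨a1, a2, rfl⟩ ⟨b1, b2, b3⟩ (by omega) j (le_refl _) (by omega)
    rw [hj] at this
    exact hpos this
  · intro i j hi hj hji m hm1 hm2
    exact self0 m (by omega) (by omega) (rev i j hi hj hji m hm1 hm2)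
  · rintro i ⟨b1, b2, b3⟩ ⟨c1, c2, c3⟩
    have h1 : X η i + Y η (i + 1) = 0 := by rw [b3, c3]; exact ht
    rw [XY_adj] at h1
    have h2 := hnn i b1 b2
    have h3 := hnn (i + 1) c1 c2
    exact ⟨(self0 i b1 b2 (by linarith)).2, (self0 (i + 1) c1 c2 (by linarith)).1⟩

theorem Good.TL_of_I (hpos : η 1 ≠ 0) {i0 j0 : ℕ} (h0 : Al n i0 j0) (ht : X η i0 + Y η j0 = 0)
    {i : ℕ} (hi : 1 ≤ i ∧ i + 1 ≤ n ∧ X η i = X η i0) : TL n η i := by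
  obtain ⟨a1, a2, a3, a4⟩ := h0.bds
  have hc := h.cl hn hpos h0 ht
  have key : (1 ≤ i ∧ i + 1 ≤ n ∧ Y η i = Y η j0) → TL n η i := by
    intro hj
    refine ⟨i, i, ⟨hi.1, hj.2.1, Or.inr ⟨rfl, (hc.rJ i hj).1, (hc.rI i hi).2⟩⟩, ?_, Or.inl rfl⟩
    rw [hi.2.2, hj.2.2]; exact ht
  by_cases h1 : i + 2 ≤ j0
  · exact ⟨i, j0, ⟨hi.1, a4, Or.inl h1⟩, by rw [hi.2.2]; exact ht, Or.inl rfl⟩
  · by_cases h2 : j0 = i + 1
    · apply key
      exact (hc.adj i hi (by rw [← h2]; exact ⟨a3, a4, rfl⟩)).1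
    · apply key
      exact (hc.rev i j0 hi ⟨a3, a4, rfl⟩ (by omega) i (by omega) (le_refl _)).2

theorem Good.TL_of_J (hpos : η 1 ≠ 0) {i0 j0 : ℕ} (h0 : Al n i0 j0) (ht : X η i0 + Y η j0 = 0)
    {j : ℕ} (hj : 1 ≤ j ∧ j + 1 ≤ n ∧ Y η j = Y η j0) : TL n η j := by
  obtain ⟨a1, a2, a3, a4⟩ := h0.bds
  have hc := h.cl hn hpos h0 ht
  have key : (1 ≤ j ∧ j + 1 ≤ n ∧ X η j = X η i0) → TL n η j := by
    intro hi
    refine ⟨j, j, ⟨hi.1, hj.2.1, Or.inr ⟨rfl, (hc.rJ j hj).1, (hc.rI j hi).2⟩⟩, ?_, Or.inl rfl⟩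
    rw [hi.2.2, hj.2.2]; exact ht
  by_cases h1 : i0 + 2 ≤ j
  · exact ⟨i0, j, ⟨a1, hj.2.1, Or.inl h1⟩, by rw [hj.2.2]; exact ht, Or.inr (Or.inl rfl)⟩
  · by_cases h2 : j = i0 + 1
    · apply key
      rw [h2]
      exact (hc.adj i0 ⟨a1, a2, rfl⟩ (by rw [← h2]; exact hj)).2
    · apply key
      exact (hc.rev i0 j ⟨a1, a2, rfl⟩ hj (by omega) j (le_refl _) (by omega)).1

theorem Good.TL_zero_of (hpos : η 1 ≠ 0) {i0 j0 : ℕ} (h0 : Al n i0 j0)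
    (ht : X η i0 + Y η j0 = 0) {m : ℕ} (hi : 1 ≤ m ∧ m + 1 ≤ n ∧ X η m = X η i0)
    (hj : 1 ≤ m ∧ m + 1 ≤ n ∧ Y η m = Y η j0) : TL n η 0 := by
  have hc := h.cl hn hpos h0 ht
  exact ⟨m, m, ⟨hi.1, hj.2.1, Or.inr ⟨rfl, (hc.rJ m hj).1, (hc.rI m hi).2⟩⟩,
    by rw [hi.2.2, hj.2.2]; exact ht, Or.inr (Or.inr ⟨rfl, rfl⟩)⟩

theorem Good.sub (hpos : η 1 ≠ 0) {i0 j0 : ℕ} (h0 : Al n i0 j0) (ht : X η i0 + Y η j0 = 0)
    {s : ℕ → Prop} (hs : ∀ k, TL n η k → s k) :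
    Sub s (fun i => 1 ≤ i ∧ i + 1 ≤ n ∧ X η i = X η i0)
      (fun j => 1 ≤ j ∧ j + 1 ≤ n ∧ Y η j = Y η j0) :=
  ⟨fun _ hi => hs _ (h.TL_of_I hn hpos h0 ht hi), fun _ hj => hs _ (h.TL_of_J hn hpos h0 ht hj),
    fun h0' _ hi hj => h0' (hs 0 (h.TL_zero_of hn hpos h0 ht hi hj))⟩

/-- elements of the label come from `I` or `J` -/
theorem Good.TL_cases {i0 j0 : ℕ} (h0 : Al n i0 j0) (ht : X η i0 + Y η j0 = 0)
    {k : ℕ} (hk : TL n η k) (k1 : 1 ≤ k) :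
    (1 ≤ k ∧ k + 1 ≤ n ∧ X η k = X η i0) ∨ (1 ≤ k ∧ k + 1 ≤ n ∧ Y η k = Y η j0) := by
  obtain ⟨i, j, hij, h1, h2⟩ := hk
  obtain ⟨a1, a2, a3, a4⟩ := hij.bds
  have h3 := (h.tight_iff hn h0 ht a1 a2 a3 a4).1 h1
  rcases h2 with rfl | rfl | ⟨rfl, _⟩
  · exact Or.inl ⟨a1, a2, h3.1⟩
  · exact Or.inr ⟨a3, a4, h3.2⟩
  · omega

theorem Good.TL_zero_cases {i0 j0 : ℕ} (h0 : Al n i0 j0) (ht : X η i0 + Y η j0 = 0)
    (hk : TL n η 0) :
    ∃ m, (1 ≤ m ∧ m + 1 ≤ n ∧ X η m = X η i0) ∧ (1 ≤ m ∧ m + 1 ≤ n ∧ Y η m = Y η j0) := by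
  obtain ⟨i, j, hij, h1, h2⟩ := hk
  obtain ⟨a1, a2, a3, a4⟩ := hij.bds
  have h3 := (h.tight_iff hn h0 ht a1 a2 a3 a4).1 h1
  rcases h2 with h2 | h2 | ⟨_, h2⟩
  · omega
  · omega
  · subst h2
    exact ⟨i, ⟨a1, a2, h3.1⟩, ⟨a3, a4, h3.2⟩⟩

end

/-- Combinatorial minimality: the label of a face determines it inside a bigger face. -/
theorem comb_minimal {n : ℕ} (hn : 4 ≤ n) {η θ : ℕ → ℝ} (h : Good n η) (h' : Good n θ)
    (hpos : η 1 ≠ 0) {i0 j0 : ℕ} (h0 : Al n i0 j0) (ht : X η i0 + Y η j0 = 0)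
    (hsub : ∀ i j, Al n i j → X η i + Y η j = 0 → X θ i + Y θ j = 0)
    (hlab : ∀ k, k < n → TL n θ k → TL n η k) :
    ∀ i j, Al n i j → X θ i + Y θ j = 0 → X η i + Y η j = 0 := by
  have hc := h.cl hn hpos h0 ht
  set I : ℕ → Prop := fun i => 1 ≤ i ∧ i + 1 ≤ n ∧ X η i = X η i0 with hI
  set J : ℕ → Prop := fun j => 1 ≤ j ∧ j + 1 ≤ n ∧ Y η j = Y η j0 with hJ
  obtain ⟨M, hM, hMmax⟩ := exists_max (P := I) (N := n)
    (fun i hi => by have := hc.rI i hi; omega) hc.neI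
  obtain ⟨L, hL, hLmin⟩ := exists_min (P := J) hc.neJ
  have rM := hc.rI M hM
  have rL := hc.rJ L hL
  by_cases hθ : θ 1 = 0
  · -- `θ` is the trivial functional: impossible
    exfalso
    have hz := h'.zero_of hn hθ
    have all : ∀ i j, Al n i j → X θ i + Y θ j = 0 := by
      intro i j hij
      obtain ⟨a1, a2, a3, a4⟩ := hij.bds
      have e1 : ∀ m, m + 1 ≤ n → S θ m = 0 := by
        intro m hm
        unfold S
        apply Finset.sum_eq_zero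
        intro k hk
        simp only [Finset.mem_Icc] at hk
        exact hz k hk.1 (by omega)
      unfold X Y
      rw [hz i a1 a2, hz j a3 a4, e1 i a2, e1 (j - 1) (by omega)]
      ring
    have hM1 : TL n θ (M + 1) := by
      by_cases h1 : M + 1 + 2 ≤ n
      · have h2 : Al n (M + 1) (M + 1) := ⟨by omega, by omega, Or.inr ⟨rfl, by omega, h1⟩⟩
        exact ⟨M + 1, M + 1, h2, all _ _ h2, Or.inl rfl⟩
      · have h2 : Al n 1 (M + 1) := ⟨by omega, by omega, Or.inl (by omega)⟩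
        exact ⟨1, M + 1, h2, all _ _ h2, Or.inr (Or.inl rfl)⟩
    rcases h.TL_cases hn h0 ht (hlab _ (by omega) hM1) (by omega) with h3 | h3
    · have := hMmax _ h3
      omega
    · have := hMmax _ (hc.adj M hM h3).2
      omega
  · have ht' := hsub i0 j0 h0 ht
    have hc' := h'.cl hn hθ h0 ht'
    -- inclusions
    have incI : ∀ i, I i → (1 ≤ i ∧ i + 1 ≤ n ∧ X θ i = X θ i0) := by
      intro i hi
      obtain ⟨a, b, hab, h1, h2⟩ := h.TL_of_I hn hpos h0 ht hi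
      have h3 := hsub a b hab h1
      obtain ⟨a1, a2, a3, a4⟩ := hab.bds
      have h4 := (h'.tight_iff hn h0 ht' a1 a2 a3 a4).1 h3
      have h5 := (h.tight_iff hn h0 ht a1 a2 a3 a4).1 h1
      rcases h2 with rfl | rfl | ⟨rfl, _⟩
      · exact ⟨a1, a2, h4.1⟩
      · -- `i = b`, we need another tight pair with first coordinate `i`
        obtain ⟨b1, b2, b3⟩ := hi
        by_cases h6 : i + 2 ≤ j0
        · have h7 : Al n i j0 := ⟨b1, h0.bds.2.2.2, Or.inl h6⟩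
          have h8 : X η i + Y η j0 = 0 := by rw [b3]; exact ht
          have h9 := hsub i j0 h7 h8
          exact ⟨b1, b2, ((h'.tight_iff hn h0 ht' b1 b2 h0.bds.2.2.1 h0.bds.2.2.2).1 h9).1⟩
        · have hJi : J i := by
            exact ⟨a3, a4, h5.2⟩
          have h7 : Al n i i := ⟨b1, b2, Or.inr ⟨rfl, (hc.rJ i hJi).1, (hc.rI i ⟨b1, b2, b3⟩).2⟩⟩
          have h8 : X η i + Y η i = 0 := by rw [b3, hJi.2.2]; exact ht
          have h9 := hsub i i h7 h8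
          exact ⟨b1, b2, ((h'.tight_iff hn h0 ht' b1 b2 b1 b2).1 h9).1⟩
      · exact absurd hi.1 (by omega)
    have incJ : ∀ j, J j → (1 ≤ j ∧ j + 1 ≤ n ∧ Y θ j = Y θ j0) := by
      intro j hj
      obtain ⟨a1, a2, a3, a4⟩ := h0.bds
      obtain ⟨b1, b2, b3⟩ := hj
      by_cases h6 : i0 + 2 ≤ j
      · have h7 : Al n i0 j := ⟨a1, b2, Or.inl h6⟩
        have h8 : X η i0 + Y η j = 0 := by rw [b3]; exact ht
        have h9 := hsub i0 j h7 h8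
        exact ⟨b1, b2, ((h'.tight_iff hn h0 ht' a1 a2 b1 b2).1 h9).2⟩
      · have hIj : I j := by
          by_cases h7 : j = i0 + 1
          · rw [h7]
            exact (hc.adj i0 ⟨a1, a2, rfl⟩ (by rw [← h7]; exact ⟨b1, b2, b3⟩)).2
          · exact (hc.rev i0 j ⟨a1, a2, rfl⟩ ⟨b1, b2, b3⟩ (by omega) j (le_refl _) (by omega)).1
        have h7 : Al n j j := ⟨b1, b2, Or.inr ⟨rfl, (hc.rJ j ⟨b1, b2, b3⟩).1, (hc.rI j hIj).2⟩⟩
        have h8 : X η j + Y η j = 0 := by rw [b3, hIj.2.2]; exact ht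
        have h9 := hsub j j h7 h8
        exact ⟨b1, b2, ((h'.tight_iff hn h0 ht' b1 b2 b1 b2).1 h9).2⟩
    have backI : ∀ i, (1 ≤ i ∧ i + 1 ≤ n ∧ X θ i = X θ i0) → I i := by
      intro i hi
      by_contra hni
      have hTL := hlab i (by omega) (h'.TL_of_I hn hθ h0 ht' hi)
      have hJi : J i := (h.TL_cases hn h0 ht hTL hi.1).resolve_left hni
      have hJi' := incJ i hJi
      have h0' := h'.TL_zero_of hn hθ h0 ht' hi hJi'
      obtain ⟨m, hm1, hm2⟩ := h.TL_zero_cases hn h0 ht (hlab 0 (by omega) h0')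
      have hmM := hMmax m hm1
      by_cases h1 : i ≤ M
      · exact hni (hc.rev M i hM hJi h1 i (le_refl _) h1).1
      · have h2 := (hc'.rev i m hi (incJ m hm2) (by omega) (M + 1) (by omega) (by omega)).1
        have h3 := hlab (M + 1) (by omega) (h'.TL_of_I hn hθ h0 ht' h2)
        rcases h.TL_cases hn h0 ht h3 (by omega) with h4 | h4
        · have := hMmax _ h4
          omega
        · have := hMmax _ (hc.adj M hM h4).2
          omega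
    have backJ : ∀ j, (1 ≤ j ∧ j + 1 ≤ n ∧ Y θ j = Y θ j0) → J j := by
      intro j hj
      by_contra hnj
      have hTL := hlab j (by omega) (h'.TL_of_J hn hθ h0 ht' hj)
      have hIj : I j := (h.TL_cases hn h0 ht hTL hj.1).resolve_right hnj
      have hIj' := incI j hIj
      have h0' := h'.TL_zero_of hn hθ h0 ht' hIj' hj
      obtain ⟨m, hm1, hm2⟩ := h.TL_zero_cases hn h0 ht (hlab 0 (by omega) h0')
      have hmL := hLmin m hm2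
      by_cases h1 : L ≤ j
      · exact hnj (hc.rev j L hIj hL h1 j h1 (le_refl _)).2
      · have h2 := (hc'.rev m j (incI m hm1) hj (by omega) (L - 1) (by omega) (by omega)).2
        have h3 := hlab (L - 1) (by omega) (h'.TL_of_J hn hθ h0 ht' h2)
        have hL' : J (L - 1 + 1) := by rwa [Nat.sub_add_cancel (by omega)]
        rcases h.TL_cases hn h0 ht h3 (by omega) with h4 | h4
        · have := hLmin _ (hc.adj (L - 1) h4 hL').1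
          omega
        · have := hLmin _ h4
          omega
    intro i j hij h1
    obtain ⟨a1, a2, a3, a4⟩ := hij.bds
    have h2 := (h'.tight_iff hn h0 ht' a1 a2 a3 a4).1 h1
    have h3 := backI i ⟨a1, a2, h2.1⟩
    have h4 := backJ j ⟨a3, a4, h2.2⟩
    exact (h.tight_iff hn h0 ht a1 a2 a3 a4).2 ⟨h3.2.2, h4.2.2⟩

end Pool.Helper81.JN
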