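import Pool.Agent.Helper81.JN.Pts

namespace Pool.Helper81.JN

open Finset

/-! ### general facts on convex hulls -/

section General

variable {ι : Type*} {d : ℕ} {v : ι → (Fin d → ℝ)}

theorem nonneg_hull {c : ℝ} {l : (Fin d → ℝ) →ₗ[ℝ] ℝ} (h : ∀ e, 0 ≤ c + l (v e)) :
    ∀ x ∈ convexHull ℝ (Set.range v), 0 ≤ c + l x := by
  have hconv : Convex ℝ {x : Fin d → ℝ | 0 ≤ c + l x} := by
    intro x hx y hy a b ha hb hab
    simp only [Set.mem_ofPred_eq, map_add, map_smul, smul_eq_mul] at *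
    have : c + (a * l x + b * l y) = a * (c + l x) + b * (c + l y) := by
      have : c = (a + b) * c := by rw [hab, one_mul]
      nlinarith
    rw [this]
    positivity
  have hsub : Set.range v ⊆ {x : Fin d → ℝ | 0 ≤ c + l x} := by
    rintro _ ⟨e, rfl⟩
    exact h e
  intro x hx
  exact convexHull_min hsub hconv hx

theorem zero_hull {c c' : ℝ} {l l' : (Fin d → ℝ) →ₗ[ℝ] ℝ} (h : ∀ e, 0 ≤ c + l (v e))
    (hz : ∀ e, c + l (v e) = 0 → c' + l' (v e) = 0) :
    ∀ x ∈ convexHull ℝ (Set.range v), c + l x = 0 → c' + l' x = 0 := by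
  intro x hx h0
  rw [_root_.convexHull_eq] at hx
  obtain ⟨κ, t, w, z, hw0, hw1, hz', rfl⟩ := hx
  have ec : ∀ (a : ℝ) (f : (Fin d → ℝ) →ₗ[ℝ] ℝ),
      a + f (t.centerMass w z) = ∑ i ∈ t, w i * (a + f (z i)) := by
    intro a f
    rw [Finset.centerMass_eq_of_sum_1 _ _ hw1, map_sum]
    simp only [map_smul, smul_eq_mul, mul_add, Finset.sum_add_distrib, ← Finset.sum_mul, hw1,
      one_mul]
  rw [ec] at h0 ⊢
  have hnn : ∀ i ∈ t, 0 ≤ w i * (c + l (z i)) := by
    intro i hi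
    obtain ⟨e, he⟩ := hz' i hi
    rw [← he]
    exact mul_nonneg (hw0 i hi) (h e)
  rw [Finset.sum_eq_zero_iff_of_nonneg hnn] at h0
  apply Finset.sum_eq_zero
  intro i hi
  obtain ⟨e, he⟩ := hz' i hi
  rcases mul_eq_zero.1 (h0 i hi) with h1 | h1
  · rw [h1, zero_mul]
  · rw [← he] at h1 ⊢
    rw [hz e h1, mul_zero]

theorem exists_zero_vertex {c : ℝ} {l : (Fin d → ℝ) →ₗ[ℝ] ℝ} (h : ∀ e, 0 ≤ c + l (v e))
    {x : Fin d → ℝ} (hx : x ∈ convexHull ℝ (Set.range v)) (h0 : c + l x = 0) :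
    ∃ e, c + l (v e) = 0 := by
  by_contra hc
  push Not at hc
  have := zero_hull (c' := 1) (l' := 0) h (fun e he => absurd he (hc e)) x hx h0
  simp at this

theorem face_data {F : Set (Fin d → ℝ)} (hF : IsFace (convexHull ℝ (Set.range v)) F) :
    ∃ (c : ℝ) (l : (Fin d → ℝ) →ₗ[ℝ] ℝ), (∀ e, 0 ≤ c + l (v e)) ∧
      F = {x ∈ convexHull ℝ (Set.range v) | c + l x = 0} := by
  obtain ⟨⟨x0, hx0⟩, hexp⟩ := hF
  obtain ⟨l, hl⟩ := hexp ⟨x0, hx0⟩
  have hx0' := hx0
  rw [hl] at hx0'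
  refine ⟨l x0, -l.toLinearMap, ?_, ?_⟩
  · intro e
    have := hx0'.2 (v e) (subset_convexHull ℝ _ ⟨e, rfl⟩)
    simp only [LinearMap.neg_apply, ContinuousLinearMap.coe_coe]
    linarith
  · ext x
    constructor
    · intro hx
      rw [hl] at hx
      refine ⟨hx.1, ?_⟩
      have h1 := hx.2 x0 hx0'.1
      have h2 := hx0'.2 x hx.1
      simp only [LinearMap.neg_apply, ContinuousLinearMap.coe_coe]
      linarith
    · rintro ⟨h1, h2⟩
      simp only [LinearMap.neg_apply, ContinuousLinearMap.coe_coe] at h2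
      rw [hl]
      refine ⟨h1, fun y hy => ?_⟩
      have := hx0'.2 y hy
      linarith

theorem face_of_data {c : ℝ} {l : (Fin d → ℝ) →ₗ[ℝ] ℝ} (h : ∀ e, 0 ≤ c + l (v e))
    (hne : {x ∈ convexHull ℝ (Set.range v) | c + l x = 0}.Nonempty) :
    IsFace (convexHull ℝ (Set.range v)) {x ∈ convexHull ℝ (Set.range v) | c + l x = 0} := by
  refine ⟨hne, fun _ => ⟨LinearMap.toContinuousLinearMap (-l), ?_⟩⟩
  have hnn := nonneg_hull h
  obtain ⟨x0, hx0, hx0'⟩ := hne
  ext x
  constructor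
  · rintro ⟨h1, h2⟩
    refine ⟨h1, fun y hy => ?_⟩
    have := hnn y hy
    simp only [LinearMap.coe_toContinuousLinearMap', LinearMap.neg_apply]
    linarith
  · rintro ⟨h1, h2⟩
    refine ⟨h1, ?_⟩
    have h3 := h2 x0 hx0
    have h4 := hnn x h1
    simp only [LinearMap.coe_toContinuousLinearMap', LinearMap.neg_apply] at h3
    linarith

theorem convex_zero (c : ℝ) (l : (Fin d → ℝ) →ₗ[ℝ] ℝ) :
    Convex ℝ {x ∈ convexHull ℝ (Set.range v) | c + l x = 0} := by
  rintro x ⟨hx, hx'⟩ y ⟨hy, hy'⟩ a b ha hb hab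
  refine ⟨convex_convexHull ℝ _ hx hy ha hb hab, ?_⟩
  simp only [map_add, map_smul, smul_eq_mul]
  have : c + (a * l x + b * l y) = a * (c + l x) + b * (c + l y) := by
    have : c = (a + b) * c := by rw [hab, one_mul]
    nlinarith
  rw [this, hx', hy']
  ring

end General

/-! ### sums of facet functionals -/

theorem combine {n : ℕ} (hn : 4 ≤ n) {s : ℕ → Prop} {T : ℕ → ℕ → Prop}
    (hT : ∀ i j, T i j → Al n i j)
    (H' : ∀ k, k < n → ¬ s k → ∃ p q, Fa n p q ∧ (k = p ∨ k = q ∨ (k = 0 ∧ p = q)) ∧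
      ∀ i j, T i j → (i < q ∧ i ≠ p ∧ p < j ∧ j ≠ q)) :
    ∃ θ, Good n θ ∧ (∀ i j, T i j → X θ i + Y θ j = 0) ∧ ∀ k, k < n → TL n θ k → s k := by
  classical
  have H2 : ∀ k, ∃ p q, k < n → ¬ s k → (Fa n p q ∧ (k = p ∨ k = q ∨ (k = 0 ∧ p = q)) ∧
      ∀ i j, T i j → (i < q ∧ i ≠ p ∧ p < j ∧ j ≠ q)) := by
    intro k
    by_cases h1 : k < n ∧ ¬ s k
    · obtain ⟨p, q, h⟩ := H' k h1.1 h1.2
      exact ⟨p, q, fun _ _ => h⟩
    · exact ⟨0, 0, fun h2 h3 => absurd ⟨h2, h3⟩ h1⟩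
  choose p q hpq using H2
  set A : Finset ℕ := (Finset.range n).filter (fun k => ¬ s k) with hA
  have hmem : ∀ k ∈ A, k < n ∧ ¬ s k := by
    intro k hk
    rw [hA, Finset.mem_filter, Finset.mem_range] at hk
    exact hk
  let θ : ℕ → ℝ := fun m => ∑ k ∈ A, H n (p k) (q k) m
  have eX : ∀ i, X θ i = ∑ k ∈ A, X (H n (p k) (q k)) i := fun i => X_sum A _ i
  have eY : ∀ i, Y θ i = ∑ k ∈ A, Y (H n (p k) (q k)) i := fun i => Y_sum A _ i
  have eXY : ∀ i j, X θ i + Y θ j = ∑ k ∈ A, (X (H n (p k) (q k)) i + Y (H n (p k) (q k)) j) := by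
    intro i j
    rw [eX, eY, Finset.sum_add_distrib]
  have hnn : ∀ i j, Al n i j → ∀ k ∈ A,
      0 ≤ X (H n (p k) (q k)) i + Y (H n (p k) (q k)) j := by
    intro i j hij k hk
    have h1 := hmem k hk
    have h2 := hpq k h1.1 h1.2
    exact (H_nonneg h2.1 hij.bds.1 hij.bds.2.2.1 hij.bds.2.2.2).1
  refine ⟨θ, ⟨?_, ?_⟩, ?_, ?_⟩
  · show ∑ k ∈ A, H n (p k) (q k) 1 = ∑ k ∈ A, H n (p k) (q k) (n - 1)
    apply Finset.sum_congr rfl
    intro k hk
    have h1 := hmem k hk
    exact H_bd hn (hpq k h1.1 h1.2).1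
  · intro i j hij
    rw [eXY]
    exact Finset.sum_nonneg (hnn i j hij)
  · intro i j hij
    rw [eXY]
    apply Finset.sum_eq_zero
    intro k hk
    have h1 := hmem k hk
    have h2 := hpq k h1.1 h1.2
    have hal := hT i j hij
    exact (H_nonneg h2.1 hal.bds.1 hal.bds.2.2.1 hal.bds.2.2.2).2.2 (h2.2.2 i j hij)
  · rintro k hk ⟨i, j, hij, h1, h2⟩
    by_contra hs
    have hkA : k ∈ A := by
      rw [hA, Finset.mem_filter, Finset.mem_range]
      exact ⟨hk, hs⟩
    rw [eXY, Finset.sum_eq_zero_iff_of_nonneg (hnn i j hij)] at h1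
    have h3 := h1 k hkA
    have h4 := hpq k hk hs
    have h5 := (H_nonneg h4.1 hij.bds.1 hij.bds.2.2.1 hij.bds.2.2.2).2.1 h3
    have h6 := h4.2.1
    have h7 := hij.bds
    have h8 := h4.1
    unfold Fa at h8
    omega

/-! ### the polytope -/

/-- the vertices -/
noncomputable def vv (n : ℕ) (e : Diag n) : Fin (n - 3) → ℝ := pt n (lo e) (hi e)

section Poly

variable {n : ℕ} (hn : 4 ≤ n)
include hn

theorem sign_iff {c : ℝ} {l : (Fin (n - 3) → ℝ) →ₗ[ℝ] ℝ} {η : ℕ → ℝ}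
    (h : ∀ i j, Al n i j → wt n i j * (c + l (pt n i j)) = X η i + Y η j) (e : Diag n) :
    (0 ≤ c + l (vv n e) ↔ 0 ≤ X η (lo e) + Y η (hi e)) ∧
      (c + l (vv n e) = 0 ↔ X η (lo e) + Y η (hi e) = 0) := by
  have h1 := h _ _ (al_diag e)
  have h2 := wt_pos n (lo e) (hi e)
  unfold vv
  rw [← h1]
  constructor
  · exact (mul_nonneg_iff_of_pos_left h2).symm
  · constructor
    · intro h3; rw [h3, mul_zero]
    · intro h3
      exact (mul_eq_zero.1 h3).resolve_left h2.ne'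

/-- the weight sequence of a face -/
theorem good_of_nonneg {c : ℝ} {l : (Fin (n - 3) → ℝ) →ₗ[ℝ] ℝ}
    (h : ∀ e, 0 ≤ c + l (vv n e)) : Good n (et c l) := by
  refine ⟨et_bd hn c l, fun i j hij => ?_⟩
  obtain ⟨e, rfl, rfl⟩ := exists_diag hij
  exact ((sign_iff hn (fun i j hij => val_eq hn hij c l) e).1).1 (h e)

/-- membership of vertices and the label -/
theorem label_apply (F : Set (Fin (n - 3) → ℝ)) (k : Fin n) :
    (label (vv n) F k = 0 ∨ label (vv n) F k = 1) ∧
    (label (vv n) F k = 1 ↔ ∃ e, vv n e ∈ F ∧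
      (k.val = lo e ∨ k.val = hi e ∨ (k.val = 0 ∧ lo e = hi e))) := by
  classical
  have h1 : label (vv n) F k = (Finset.univ.filter fun e => vv n e ∈ F).sup (fun e => gen e k) := by
    unfold label
    rw [Finset.sup_apply]
  have h2 : label (vv n) F k ≤ 1 := by
    rw [h1]
    apply Finset.sup_le
    intro e _
    rw [gen_apply]
    split_ifs <;> omega
  have h3 : label (vv n) F k = 1 ↔ ∃ e, vv n e ∈ F ∧
      (k.val = lo e ∨ k.val = hi e ∨ (k.val = 0 ∧ lo e = hi e)) := by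
    constructor
    · intro h4
      by_contra hc
      push Not at hc
      have : label (vv n) F k ≤ 0 := by
        rw [h1]
        apply Finset.sup_le
        intro e he
        simp only [Finset.mem_filter, Finset.mem_univ, true_and] at he
        have h5 := hc e he
        rw [gen_apply, if_neg (by omega)]
      omega
    · rintro ⟨e, he, h4⟩
      apply le_antisymm h2
      rw [h1]
      have h5 : gen e k = 1 := by rw [gen_apply, if_pos h4]
      rw [← h5]
      exact Finset.le_sup (f := fun e => gen e k) (by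
        simp only [Finset.mem_filter, Finset.mem_univ, true_and]; exact he)
  exact ⟨by omega, h3⟩

/-- the label of the zero set of a nonnegative functional -/
theorem label_TL {c : ℝ} {l : (Fin (n - 3) → ℝ) →ₗ[ℝ] ℝ} {η : ℕ → ℝ}
    (h : ∀ i j, Al n i j → wt n i j * (c + l (pt n i j)) = X η i + Y η j) (k : Fin n) :
    label (vv n) {x ∈ polytope (vv n) | c + l x = 0} k = 1 ↔ TL n η k.val := by
  rw [(label_apply hn _ k).2]
  constructor
  · rintro ⟨e, he, h1⟩
    exact ⟨lo e, hi e, al_diag e, (sign_iff hn h e).2.1 he.2, h1⟩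
  · rintro ⟨i, j, hij, h1, h2⟩
    obtain ⟨e, rfl, rfl⟩ := exists_diag hij
    exact ⟨e, ⟨subset_convexHull ℝ _ ⟨e, rfl⟩, (sign_iff hn h e).2.2 h1⟩, h2⟩

/-- every vertex is exposed by a functional vanishing at no other vertex -/
theorem exists_expose (e : Diag n) :
    ∃ (c : ℝ) (l : (Fin (n - 3) → ℝ) →ₗ[ℝ] ℝ), (∀ e', 0 ≤ c + l (vv n e')) ∧
      ∀ e', c + l (vv n e') = 0 ↔ e' = e := by
  have hal := al_diag e
  set i := lo e with hi_def
  set j := hi e with hj_def
  have hal' := hal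
  obtain ⟨a1, a2, a3⟩ := hal'
  have hcl : Cl n (fun m => m = i) (fun m => m = j) := by
    refine ⟨?_, ?_, ⟨i, rfl⟩, ⟨j, rfl⟩, ?_, ?_⟩
    · rintro m rfl; omega
    · rintro m rfl; omega
    · rintro m m' rfl rfl h1 t h2 h3
      omega
    · rintro m rfl h1
      omega
  have hsub : Sub (fun k => k = i ∨ k = j ∨ (k = 0 ∧ i = j)) (fun m => m = i) (fun m => m = j) :=
    ⟨fun _ h => Or.inl h, fun _ h => Or.inr (Or.inl h), fun h m h1 h2 =>
      h (Or.inr (Or.inr ⟨rfl, by rw [← h1, ← h2]⟩))⟩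
  obtain ⟨θ, hθ, h1, h2⟩ := combine hn (s := fun k => k = i ∨ k = j ∨ (k = 0 ∧ i = j))
    (T := fun a b => a = i ∧ b = j) (by rintro a b ⟨rfl, rfl⟩; exact hal) (by
      intro k hk hks
      obtain ⟨p, q, b1, b2, b3, b4⟩ := exists_facet hcl hsub k hk hks
      refine ⟨p, q, b1, b2, ?_⟩
      rintro a b ⟨rfl, rfl⟩
      exact ⟨(b3 _ rfl).1, (b3 _ rfl).2, (b4 _ rfl).1, (b4 _ rfl).2⟩)
  obtain ⟨c, l, hcl'⟩ := exists_functional hn hθ.bd
  refine ⟨c, l, fun e' => (sign_iff hn hcl' e').1.2 (hθ.nn _ _ (al_diag e')), fun e' => ?_⟩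
  rw [(sign_iff hn hcl' e').2]
  constructor
  · intro h3
    have hal2 := al_diag e'
    have k1 : ∀ k, k < n → (k = lo e' ∨ k = hi e' ∨ (k = 0 ∧ lo e' = hi e')) →
        (k = i ∨ k = j ∨ (k = 0 ∧ i = j)) := fun k hk hk' =>
      h2 k hk ⟨lo e', hi e', hal2, h3, hk'⟩
    have k2 := k1 (lo e') (by have := hal2.bds; omega) (Or.inl rfl)
    have k3 := k1 (hi e') (by have := hal2.bds; omega) (Or.inr (Or.inl rfl))
    have k4 := k1 0 (by omega)
    obtain ⟨b1, b2, b3⟩ := hal2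
    have k5 : lo e' = i ∧ hi e' = j := by
      by_cases h5 : lo e' = hi e'
      · have := k4 (Or.inr (Or.inr ⟨rfl, h5⟩))
        omega
      · omega
    have hA := (gen_apply e')
    have hB := (gen_apply e)
    have hgen : gen e' = gen e := by
      funext k
      rw [hA k, hB k, k5.1, k5.2]
    obtain ⟨⟨x, y⟩, hxy, _⟩ := e'
    obtain ⟨⟨x', y'⟩, hxy', _⟩ := e
    have hxy2 : x < y := hxy
    have hxy2' : x' < y' := hxy'
    have e1 := congrFun hgen x
    have e2 := congrFun hgen y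
    have e3 := congrFun hgen x'
    have e4 := congrFun hgen y'
    simp only [gen, Pi.add_apply, Pi.single_apply, if_true] at e1 e2 e3 e4
    apply Subtype.ext
    apply Prod.ext
    · show x = x'
      by_contra hne
      rw [if_neg hne] at e1
      rw [if_neg (Ne.symm hne)] at e3
      have e5 : x = y' := by
        by_contra h6
        rw [if_neg h6] at e1
        omega
      have e6 : x' = y := by
        by_contra h6
        rw [if_neg h6] at e3
        omega
      rw [e5] at hxy2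
      rw [e6] at hxy2'
      exact absurd (hxy2.trans hxy2') (lt_irrefl _)
    · show y = y'
      by_contra hne
      rw [if_neg hne] at e2
      rw [if_neg (Ne.symm hne)] at e4
      have e5 : y = x' := by
        by_contra h6
        rw [if_neg h6] at e2
        omega
      have e6 : y' = x := by
        by_contra h6
        rw [if_neg h6] at e4
        omega
      rw [e5] at hxy2
      rw [e6] at hxy2'
      exact absurd (hxy2.trans hxy2') (lt_irrefl _)
  · rintro rfl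
    exact h1 _ _ ⟨rfl, rfl⟩

theorem vv_injective : Function.Injective (vv n) := by
  intro e e' h
  obtain ⟨c, l, _, h2⟩ := exists_expose hn e
  have h3 := (h2 e).2 rfl
  rw [h] at h3
  exact ((h2 e').1 h3).symm

theorem vv_extreme (e : Diag n) : vv n e ∈ (polytope (vv n)).extremePoints ℝ := by
  obtain ⟨c, l, h1, h2⟩ := exists_expose hn e
  have hmem : vv n e ∈ {x ∈ polytope (vv n) | c + l x = 0} :=
    ⟨subset_convexHull ℝ _ ⟨e, rfl⟩, (h2 e).2 rfl⟩
  have hface := face_of_data h1 ⟨vv n e, hmem⟩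
  have heq : {x ∈ polytope (vv n) | c + l x = 0} = {vv n e} := by
    apply Set.eq_singleton_iff_unique_mem.2
    refine ⟨hmem, ?_⟩
    rintro x ⟨hx, hx0⟩
    funext k
    have := zero_hull (c' := - vv n e k) (l' := LinearMap.proj k) h1 (by
      intro e' he'
      rw [(h2 e').1 he']
      simp) x hx hx0
    simp only [LinearMap.proj_apply] at this
    linarith
  rw [← isExtreme_singleton, ← heq]
  exact hface.2.isExtreme

end Poly

end Pool.Helper81.JN
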