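import Pool.Agent.Helper81.JN.Geo

namespace Pool.Helper81.JN

open Finset

/-- coefficients of `X η i + Y η j` -/
noncomputable def coef (i j m : ℕ) : ℝ :=
  (if m = i then 1 else 0) + (if m ≤ i then 1 else 0) + (if m = j then 1 else 0)
    - (if m < j then 1 else 0)

theorem XY_eq_sum (η : ℕ → ℝ) {n i j : ℕ} (hi1 : 1 ≤ i) (hi2 : i + 1 ≤ n) (hj1 : 1 ≤ j)
    (hj2 : j + 1 ≤ n) : X η i + Y η j = ∑ m ∈ Icc 1 (n - 1), coef i j m * η m := by
  have e1 : ∑ m ∈ Icc 1 (n - 1), (if m = i then (1 : ℝ) else 0) * η m = η i := by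
    simp only [ite_mul, one_mul, zero_mul]
    rw [Finset.sum_ite_eq']
    rw [if_pos (by simp only [Finset.mem_Icc]; omega)]
  have e2 : ∑ m ∈ Icc 1 (n - 1), (if m = j then (1 : ℝ) else 0) * η m = η j := by
    simp only [ite_mul, one_mul, zero_mul]
    rw [Finset.sum_ite_eq']
    rw [if_pos (by simp only [Finset.mem_Icc]; omega)]
  have e3 : ∑ m ∈ Icc 1 (n - 1), (if m ≤ i then (1 : ℝ) else 0) * η m = S η i := by
    simp only [ite_mul, one_mul, zero_mul]
    rw [← Finset.sum_filter]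
    unfold S
    apply Finset.sum_congr _ (fun _ _ => rfl)
    ext m
    simp only [Finset.mem_filter, Finset.mem_Icc]
    omega
  have e4 : ∑ m ∈ Icc 1 (n - 1), (if m < j then (1 : ℝ) else 0) * η m = S η (j - 1) := by
    simp only [ite_mul, one_mul, zero_mul]
    rw [← Finset.sum_filter]
    unfold S
    apply Finset.sum_congr _ (fun _ _ => rfl)
    ext m
    simp only [Finset.mem_filter, Finset.mem_Icc]
    omega
  simp only [coef, add_mul, sub_mul, Finset.sum_add_distrib, Finset.sum_sub_distrib]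
  rw [e1, e2, e3, e4]
  unfold X Y
  ring

/-- the positive functional -/
noncomputable def phi (n m : ℕ) : ℝ := 2 ^ (n - m) + 2 ^ m

/-- value of the positive functional on the vertex vectors -/
noncomputable def wt (n i j : ℕ) : ℝ := 3 * (2 ^ i + 2 ^ (n - j))

theorem wt_pos (n i j : ℕ) : 0 < wt n i j := by unfold wt; positivity

theorem phi_pos (n m : ℕ) : 0 < phi n m := by unfold phi; positivity

theorem S_phi {n m : ℕ} (h : m ≤ n) : S (phi n) m = 2 ^ n - 2 ^ (n - m) + 2 * 2 ^ m - 2 := by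
  induction m with
  | zero => simp [S_zero]
  | succ k ih =>
    rw [S_succ, ih (by omega)]
    unfold phi
    obtain ⟨t, rfl⟩ : ∃ t, n = k + 1 + t := ⟨n - (k + 1), by omega⟩
    rw [show k + 1 + t - k = t + 1 by omega, show k + 1 + t - (k + 1) = t by omega]
    simp only [pow_succ]
    ring

theorem XY_phi {n i j : ℕ} (hi : i ≤ n) (hj1 : 1 ≤ j) (hj : j ≤ n) :
    X (phi n) i + Y (phi n) j = wt n i j := by
  unfold X Y wt
  rw [S_phi hi, S_phi (by omega : j - 1 ≤ n)]
  unfold phi
  obtain ⟨k, rfl⟩ : ∃ k, j = k + 1 := ⟨j - 1, by omega⟩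
  obtain ⟨t, ht⟩ : ∃ t, n = k + 1 + t := ⟨n - (k + 1), by omega⟩
  have e1 : n - (k + 1) = t := by omega
  have e2 : n - (k + 1 - 1) = t + 1 := by omega
  rw [e1, e2, Nat.add_sub_cancel]
  simp only [pow_succ]
  ring

/-- the coordinates of the vertices of the polytope -/
noncomputable def pt (n i j : ℕ) : Fin (n - 3) → ℝ := fun k => coef i j (k.val + 2) / wt n i j

/-- the coefficient sequence of a linear functional -/
noncomputable def fc {n : ℕ} (l : (Fin (n - 3) → ℝ) →ₗ[ℝ] ℝ) (m : ℕ) : ℝ :=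
  if h : m - 2 < n - 3 then l (fun j => if (⟨m - 2, h⟩ : Fin (n - 3)) = j then 1 else 0) else 0

/-- the weight sequence of an affine functional `c + l` -/
noncomputable def et {n : ℕ} (c : ℝ) (l : (Fin (n - 3) → ℝ) →ₗ[ℝ] ℝ) (m : ℕ) : ℝ :=
  c * phi n m + if (2 ≤ m ∧ m + 2 ≤ n) then fc l m else 0

theorem et_bd {n : ℕ} (hn : 4 ≤ n) (c : ℝ) (l : (Fin (n - 3) → ℝ) →ₗ[ℝ] ℝ) :
    et c l 1 = et c l (n - 1) := by
  unfold et
  rw [if_neg (by omega), if_neg (by omega)]
  unfold phi
  rw [show n - (n - 1) = 1 by omega]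
  ring

theorem X_smul_add (c : ℝ) (f g : ℕ → ℝ) (i : ℕ) :
    X (fun m => c * f m + g m) i = c * X f i + X g i := by
  simp only [X, S, Finset.sum_add_distrib, ← Finset.mul_sum]
  ring

theorem Y_smul_add (c : ℝ) (f g : ℕ → ℝ) (i : ℕ) :
    Y (fun m => c * f m + g m) i = c * Y f i + Y g i := by
  simp only [Y, S, Finset.sum_add_distrib, ← Finset.mul_sum]
  ring

theorem sum_fc {n : ℕ} (hn : 4 ≤ n) (l : (Fin (n - 3) → ℝ) →ₗ[ℝ] ℝ) (f : ℕ → ℝ) :
    ∑ m ∈ Icc 1 (n - 1), f m * (if (2 ≤ m ∧ m + 2 ≤ n) then fc l m else 0)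
      = ∑ k : Fin (n - 3), f (k.val + 2) * l (fun j => if k = j then 1 else 0) := by
  have e1 : ∀ k : Fin (n - 3), l (fun j => if k = j then 1 else 0) = fc l (k.val + 2) := by
    intro k
    unfold fc
    rw [dif_pos (by simp only [Nat.add_sub_cancel]; exact k.isLt)]
    congr 1
  simp only [e1]
  rw [Fin.sum_univ_eq_sum_range (fun k => f (k + 2) * fc l (k + 2)) (n - 3)]
  simp only [mul_ite, mul_zero]
  rw [← Finset.sum_filter]
  symm
  apply Finset.sum_bij (fun k _ => k + 2)
  · intro k hk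
    simp only [Finset.mem_range] at hk
    simp only [Finset.mem_filter, Finset.mem_Icc]
    omega
  · intro a _ b _ h
    omega
  · intro m hm
    simp only [Finset.mem_filter, Finset.mem_Icc] at hm
    exact ⟨m - 2, by simp only [Finset.mem_range]; omega, by omega⟩
  · intro k _
    rfl

/-- the pairing of an affine functional with a vertex -/
theorem val_eq {n i j : ℕ} (hn : 4 ≤ n) (h : Al n i j) (c : ℝ)
    (l : (Fin (n - 3) → ℝ) →ₗ[ℝ] ℝ) :
    wt n i j * (c + l (pt n i j)) = X (et c l) i + Y (et c l) j := by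
  obtain ⟨a1, a2, a3, a4⟩ := h.bds
  have e1 : X (et c l) i = c * X (phi n) i +
      X (fun m => if (2 ≤ m ∧ m + 2 ≤ n) then fc l m else 0) i := X_smul_add _ _ _ _
  have e2 : Y (et c l) j = c * Y (phi n) j +
      Y (fun m => if (2 ≤ m ∧ m + 2 ≤ n) then fc l m else 0) j := Y_smul_add _ _ _ _
  have e3 := XY_eq_sum (fun m => if (2 ≤ m ∧ m + 2 ≤ n) then fc l m else 0) a1 a2 a3 a4
  rw [sum_fc hn] at e3
  have e4 := XY_phi (n := n) (i := i) (j := j) (by omega) a3 (by omega)
  have hw := (wt_pos n i j).ne'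
  have e5 : wt n i j * l (pt n i j) =
      ∑ k : Fin (n - 3), coef i j (k.val + 2) * l (fun j => if k = j then 1 else 0) := by
    rw [LinearMap.pi_apply_eq_sum_univ l (pt n i j), Finset.mul_sum]
    apply Finset.sum_congr rfl
    intro k _
    unfold pt
    rw [smul_eq_mul]
    field_simp
  calc wt n i j * (c + l (pt n i j)) = c * wt n i j + wt n i j * l (pt n i j) := by ring
    _ = c * (X (phi n) i + Y (phi n) j) +
        (X (fun m => if (2 ≤ m ∧ m + 2 ≤ n) then fc l m else 0) i +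
          Y (fun m => if (2 ≤ m ∧ m + 2 ≤ n) then fc l m else 0) j) := by rw [e4, e5, e3]
    _ = X (et c l) i + Y (et c l) j := by rw [e1, e2]; ring

theorem S_congr {η θ : ℕ → ℝ} {n m : ℕ} (h : ∀ k, 1 ≤ k → k + 1 ≤ n → η k = θ k)
    (hm : m + 1 ≤ n) : S η m = S θ m := by
  unfold S
  apply Finset.sum_congr rfl
  intro k hk
  simp only [Finset.mem_Icc] at hk
  exact h k hk.1 (by omega)

theorem XY_congr {η θ : ℕ → ℝ} {n : ℕ} (h : ∀ k, 1 ≤ k → k + 1 ≤ n → η k = θ k) {i j : ℕ}
    (hij : Al n i j) : X η i + Y η j = X θ i + Y θ j := by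
  obtain ⟨a1, a2, a3, a4⟩ := hij.bds
  unfold X Y
  rw [S_congr h a2, S_congr h (by omega : j - 1 + 1 ≤ n), h i a1 a2, h j a3 a4]

/-- every weight sequence comes from an affine functional -/
theorem exists_functional {n : ℕ} (hn : 4 ≤ n) {η : ℕ → ℝ} (h : η 1 = η (n - 1)) :
    ∃ (c : ℝ) (l : (Fin (n - 3) → ℝ) →ₗ[ℝ] ℝ), ∀ i j, Al n i j →
      wt n i j * (c + l (pt n i j)) = X η i + Y η j := by
  set c : ℝ := η 1 / phi n 1 with hc
  have hφ := (phi_pos n 1).ne'
  let l : (Fin (n - 3) → ℝ) →ₗ[ℝ] ℝ :=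
    { toFun := fun x => ∑ k : Fin (n - 3), (η (k.val + 2) - c * phi n (k.val + 2)) * x k
      map_add' := by
        intro x y
        simp only [Pi.add_apply, mul_add, Finset.sum_add_distrib]
      map_smul' := by
        intro a x
        simp only [Pi.smul_apply, smul_eq_mul, RingHom.id_apply, Finset.mul_sum]
        apply Finset.sum_congr rfl
        intro k _
        ring }
  have key : ∀ k, 1 ≤ k → k + 1 ≤ n → et c l k = η k := by
    intro k h1 h2
    by_cases h3 : 2 ≤ k ∧ k + 2 ≤ n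
    · unfold et
      rw [if_pos h3]
      unfold fc
      rw [dif_pos (by omega : k - 2 < n - 3)]
      have : l (fun j => if (⟨k - 2, by omega⟩ : Fin (n - 3)) = j then 1 else 0)
          = η k - c * phi n k := by
        show ∑ m : Fin (n - 3), (η (m.val + 2) - c * phi n (m.val + 2)) *
          (if (⟨k - 2, by omega⟩ : Fin (n - 3)) = m then 1 else 0) = _
        simp only [mul_ite, mul_one, mul_zero]
        rw [Finset.sum_ite_eq]
        simp only [Finset.mem_univ, if_true]
        rw [show k - 2 + 2 = k by omega]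
      rw [this]; ring
    · rcases Nat.lt_or_ge k 2 with h4 | h4
      · have : k = 1 := by omega
        subst this
        unfold et
        rw [if_neg h3, hc]
        field_simp
        ring
      · have : k = n - 1 := by omega
        subst this
        rw [← et_bd hn, ← h]
        unfold et
        rw [if_neg (by omega), hc]
        field_simp
        ring
  refine ⟨c, l, fun i j hij => ?_⟩
  rw [val_eq hn hij, XY_congr key hij]

end Pool.Helper81.JN
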