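import Mathlib

/-!
# Weight sequences

A linear functional on the ambient space of the polytope `P_n` is encoded by a sequence
`η 1, ..., η (n-1)` with `η 1 = η (n-1)`.  Its value on the vertex `v_{ij}` is (up to a positive
factor) `X η i + Y η j`.
-/

namespace Pool.Helper81.JN

open Finset

/-- prefix sums `η 1 + ... + η m` -/
noncomputable def S (η : ℕ → ℝ) (m : ℕ) : ℝ := ∑ k ∈ Finset.Icc 1 m, η k

/-- first potential -/
noncomputable def X (η : ℕ → ℝ) (i : ℕ) : ℝ := η i + S η i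

/-- second potential -/
noncomputable def Y (η : ℕ → ℝ) (j : ℕ) : ℝ := η j - S η (j - 1)

/-- The index pairs of the vertices: `(i, j)` with `1 ≤ i`, `i + 2 ≤ j ≤ n - 1` (the diagonal
`{i, j}`) or `i = j`, `2 ≤ i ≤ n - 2` (the diagonal `{0, i}`). -/
def Al (n i j : ℕ) : Prop :=
  1 ≤ i ∧ j + 1 ≤ n ∧ (i + 2 ≤ j ∨ (i = j ∧ 2 ≤ i ∧ i + 2 ≤ n))

theorem S_zero (η : ℕ → ℝ) : S η 0 = 0 := by simp [S]

theorem S_succ (η : ℕ → ℝ) (m : ℕ) : S η (m + 1) = S η m + η (m + 1) := by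
  unfold S
  rw [Finset.sum_Icc_succ_top (by omega : 1 ≤ m + 1)]

theorem S_pred (η : ℕ → ℝ) {m : ℕ} (h : 1 ≤ m) : S η m = S η (m - 1) + η m := by
  obtain ⟨k, rfl⟩ : ∃ k, m = k + 1 := ⟨m - 1, by omega⟩
  simpa using S_succ η k

theorem S_add (η θ : ℕ → ℝ) (m : ℕ) : S (fun k => η k + θ k) m = S η m + S θ m := by
  simp [S, Finset.sum_add_distrib]

theorem X_add (η θ : ℕ → ℝ) (m : ℕ) : X (fun k => η k + θ k) m = X η m + X θ m := by
  simp only [X, S_add]; ring

theorem Y_add (η θ : ℕ → ℝ) (m : ℕ) : Y (fun k => η k + θ k) m = Y η m + Y θ m := by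
  simp only [Y, S_add]; ring

theorem S_sum {ι : Type*} (s : Finset ι) (η : ι → ℕ → ℝ) (m : ℕ) :
    S (fun k => ∑ a ∈ s, η a k) m = ∑ a ∈ s, S (η a) m := by
  simp only [S]
  rw [Finset.sum_comm]

theorem X_sum {ι : Type*} (s : Finset ι) (η : ι → ℕ → ℝ) (m : ℕ) :
    X (fun k => ∑ a ∈ s, η a k) m = ∑ a ∈ s, X (η a) m := by
  simp only [X, S_sum, Finset.sum_add_distrib]

theorem Y_sum {ι : Type*} (s : Finset ι) (η : ι → ℕ → ℝ) (m : ℕ) :
    Y (fun k => ∑ a ∈ s, η a k) m = ∑ a ∈ s, Y (η a) m := by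
  simp only [Y, S_sum, Finset.sum_sub_distrib]

theorem XY_self (η : ℕ → ℝ) {i : ℕ} (h : 1 ≤ i) : X η i + Y η i = 3 * η i := by
  unfold X Y
  rw [S_pred η h]; ring

theorem XY_adj (η : ℕ → ℝ) (i : ℕ) : X η i + Y η (i + 1) = η i + η (i + 1) := by
  unfold X Y
  simp

theorem S_mono_aux {η : ℕ → ℝ} {N : ℕ} (h : ∀ m, 1 ≤ m → m ≤ N → 0 ≤ η m) {a b : ℕ}
    (hab : a ≤ b) (hb : b ≤ N) : S η a ≤ S η b := by
  unfold S
  apply Finset.sum_le_sum_of_subset_of_nonneg
  · exact Finset.Icc_subset_Icc_right hab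
  · intro k hk _
    simp only [Finset.mem_Icc] at hk
    exact h k hk.1 (by omega)

/-- `η` is nonnegative on all vertices of the polytope. -/
structure Good (n : ℕ) (η : ℕ → ℝ) : Prop where
  bd : η 1 = η (n - 1)
  nn : ∀ i j, Al n i j → 0 ≤ X η i + Y η j

theorem Good.nonneg {n : ℕ} (hn : 4 ≤ n) {η : ℕ → ℝ} (h : Good n η) :
    ∀ m, 1 ≤ m → m + 1 ≤ n → 0 ≤ η m := by
  have mid : ∀ m, 2 ≤ m → m + 2 ≤ n → 0 ≤ η m := by
    intro m h2 hm
    have := h.nn m m ⟨by omega, by omega, Or.inr ⟨rfl, h2, hm⟩⟩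
    rw [XY_self η (by omega)] at this
    linarith
  have key := h.nn 1 (n - 1) ⟨le_refl _, by omega, Or.inl (by omega)⟩
  have h1 : S η 1 = η 1 := by
    have := S_succ η 0
    simpa [S_zero] using this
  have hS : S η 1 ≤ S η (n - 2) := by
    unfold S
    apply Finset.sum_le_sum_of_subset_of_nonneg
    · exact Finset.Icc_subset_Icc_right (by omega)
    · intro k hk hk'
      simp only [Finset.mem_Icc] at hk hk'
      exact mid k (by omega) (by omega)
  have h0 : 0 ≤ η 1 := by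
    unfold X Y at key
    rw [← h.bd, show n - 1 - 1 = n - 2 by omega, h1] at key
    linarith
  intro m hm1 hm2
  rcases Nat.lt_or_ge m 2 with h2 | h2
  · have : m = 1 := by omega
    rw [this]; exact h0
  · rcases Nat.lt_or_ge (m + 1) n with h3 | h3
    · exact mid m h2 (by omega)
    · have : m = n - 1 := by omega
      rw [this, ← h.bd]; exact h0

theorem Good.all_nonneg {n : ℕ} (hn : 4 ≤ n) {η : ℕ → ℝ} (h : Good n η) {i j : ℕ}
    (hi : 1 ≤ i) (hi' : i + 1 ≤ n) (hj : 1 ≤ j) (hj' : j + 1 ≤ n) : 0 ≤ X η i + Y η j := by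
  have hnn := h.nonneg hn
  rcases Nat.lt_or_ge i j with hij | hij
  · rcases Nat.lt_or_ge (i + 1) j with h2 | h2
    · exact h.nn i j ⟨hi, hj', Or.inl (by omega)⟩
    · have : j = i + 1 := by omega
      rw [this, XY_adj]
      have := hnn i hi hi'
      have := hnn (i + 1) (by omega) (by omega)
      linarith
  · have h1 := hnn i hi hi'
    have h2 := hnn j hj hj'
    have h3 : S η (j - 1) ≤ S η i := by
      apply S_mono_aux (N := n - 1) (fun m h1 h2 => hnn m h1 (by omega)) (by omega) (by omega)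
    unfold X Y
    linarith

/-- if a reversed pair is tight, everything in between vanishes -/
theorem Good.rev_zero {n : ℕ} (hn : 4 ≤ n) {η : ℕ → ℝ} (h : Good n η) {i j : ℕ}
    (hi' : i + 1 ≤ n) (hj : 1 ≤ j) (hji : j ≤ i) (ht : X η i + Y η j = 0) :
    ∀ m, j ≤ m → m ≤ i → η m = 0 := by
  have hnn := h.nonneg hn
  intro m hm1 hm2
  have h1 := hnn i (by omega) hi'
  have h2 := hnn j hj (by omega)
  have h3 : S η (j - 1) ≤ S η (m - 1) :=
    S_mono_aux (N := n - 1) (fun m h1 h2 => hnn m h1 (by omega)) (by omega) (by omega)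
  have h4 : S η m ≤ S η i :=
    S_mono_aux (N := n - 1) (fun m h1 h2 => hnn m h1 (by omega)) (by omega) (by omega)
  have h5 := S_pred η (show 1 ≤ m by omega)
  have h6 := hnn m (by omega) (by omega)
  unfold X Y at ht
  linarith

theorem Good.zero_of {n : ℕ} (hn : 4 ≤ n) {η : ℕ → ℝ} (h : Good n η) (h0 : η 1 = 0) :
    ∀ m, 1 ≤ m → m + 1 ≤ n → η m = 0 := by
  have hnn := h.nonneg hn
  have key := h.nn 1 (n - 1) ⟨le_refl _, by omega, Or.inl (by omega)⟩
  have h1 : S η 1 = η 1 := by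
    have := S_succ η 0
    simpa [S_zero] using this
  unfold X Y at key
  rw [← h.bd, show n - 1 - 1 = n - 2 by omega, h1, h0] at key
  intro m hm1 hm2
  rcases Nat.lt_or_ge (m + 1) n with h3 | h3
  · have h4 : S η m ≤ S η (n - 2) :=
      S_mono_aux (N := n - 1) (fun m h1 h2 => hnn m h1 (by omega)) (by omega) (by omega)
    have h5 : S η 0 ≤ S η (m - 1) :=
      S_mono_aux (N := n - 1) (fun m h1 h2 => hnn m h1 (by omega)) (by omega) (by omega)
    rw [S_zero] at h5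
    have h6 := S_pred η hm1
    have := hnn m hm1 hm2
    linarith
  · have : m = n - 1 := by omega
    rw [this, ← h.bd, h0]

theorem Good.add {n : ℕ} {η θ : ℕ → ℝ} (h : Good n η) (h' : Good n θ) :
    Good n (fun k => η k + θ k) := by
  refine ⟨by simp only [h.bd, h'.bd], fun i j hij => ?_⟩
  rw [X_add, Y_add]
  have := h.nn i j hij
  have := h'.nn i j hij
  linarith

/-! ### the facet functionals -/

/-- left part of the facet functional -/
noncomputable def Ef (p m : ℕ) : ℝ :=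
  if m < p then (1 / 2 : ℝ) ^ (m - 1) else if m = p then (1 / 2 : ℝ) ^ (p - 2) else 0

/-- right part of the facet functional -/
noncomputable def Gf (n q m : ℕ) : ℝ :=
  if q < m then (1 / 2 : ℝ) ^ (n - 1 - m) else if m = q then (1 / 2 : ℝ) ^ (n - 2 - q) else 0

theorem S_Ef_lt {p m : ℕ} (h : m < p) : S (Ef p) m = 2 - 2 * (1 / 2 : ℝ) ^ m := by
  induction m with
  | zero => simp [S_zero]
  | succ k ih =>
    rw [S_succ, ih (by omega)]
    simp only [Ef, if_pos h]
    simp only [Nat.add_sub_cancel]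
    rw [pow_succ]; ring

/-- the minimum of the first potential of `Ef p` -/
noncomputable def aE (p : ℕ) : ℝ := if p = 1 then 1 else 2

theorem S_Ef_ge {p m : ℕ} (hp : 1 ≤ p) (h : p ≤ m) : S (Ef p) m = aE p := by
  induction m with
  | zero => omega
  | succ k ih =>
    rw [S_succ]
    rcases Nat.lt_or_ge k p with hk | hk
    · have hkp : p = k + 1 := by omega
      rw [S_Ef_lt hk]
      simp only [Ef, hkp, lt_irrefl, if_false, if_true, aE]
      rcases k with _ | k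
      · simp
      · simp only [Nat.succ_ne_zero, if_false, add_eq_right, show k + 1 + 1 - 2 = k by omega]
        rw [pow_succ]; ring
    · rw [ih hk]
      simp only [Ef]
      rw [if_neg (by omega), if_neg (by omega), add_zero]

theorem X_Ef {p i : ℕ} (hp : 1 ≤ p) (hi : 1 ≤ i) (hne : i ≠ p) : X (Ef p) i = aE p := by
  unfold X
  rcases Nat.lt_or_ge i p with h | h
  · rw [S_Ef_lt h]
    simp only [Ef, if_pos h, aE]
    rw [if_neg (by omega : ¬ p = 1)]
    obtain ⟨k, rfl⟩ : ∃ k, i = k + 1 := ⟨i - 1, by omega⟩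
    simp only [Nat.add_sub_cancel]
    rw [pow_succ]; ring
  · rw [S_Ef_ge hp h]
    simp only [Ef]
    rw [if_neg (by omega), if_neg (by omega), zero_add]

theorem X_Ef_self {p : ℕ} (hp : 1 ≤ p) : aE p < X (Ef p) p := by
  unfold X
  rw [S_Ef_ge hp (le_refl _)]
  simp only [Ef, lt_irrefl, if_false, if_true]
  have : (0 : ℝ) < (1 / 2 : ℝ) ^ (p - 2) := by positivity
  linarith

theorem Y_Ef {p j : ℕ} (hp : 1 ≤ p) (hj : p < j) : Y (Ef p) j = - aE p := by
  unfold Y
  rw [S_Ef_ge hp (by omega : p ≤ j - 1)]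
  simp only [Ef]
  rw [if_neg (by omega), if_neg (by omega), zero_sub]

theorem Y_Ef_le {p j : ℕ} (hj1 : 1 ≤ j) (hj : j ≤ p) : - aE p < Y (Ef p) j := by
  unfold Y
  rw [S_Ef_lt (by omega : j - 1 < p)]
  have pos : (0 : ℝ) < (1 / 2 : ℝ) ^ (j - 1) := by positivity
  rcases Nat.lt_or_ge j p with h | h
  · simp only [Ef, if_pos h, aE]
    rw [if_neg (by omega : ¬ p = 1)]
    linarith
  · have hjp : j = p := by omega
    subst hjp
    simp only [Ef, lt_irrefl, if_false, if_true, aE]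
    have : (0 : ℝ) < (1 / 2 : ℝ) ^ (j - 2) := by positivity
    split_ifs with h1
    · subst h1; norm_num
    · linarith

theorem S_Gf_lt {n q m : ℕ} (h : m < q) : S (Gf n q) m = 0 := by
  unfold S
  apply Finset.sum_eq_zero
  intro k hk
  simp only [Finset.mem_Icc] at hk
  simp only [Gf]
  rw [if_neg (by omega), if_neg (by omega)]

theorem S_Gf_ge {n q m : ℕ} (hq1 : 1 ≤ q) (hq : q + 2 ≤ n) (h : q ≤ m) (hm : m + 1 ≤ n) :
    S (Gf n q) m = 2 * (1 / 2 : ℝ) ^ (n - 1 - m) := by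
  induction m with
  | zero => omega
  | succ k ih =>
    rw [S_succ]
    rcases Nat.lt_or_ge k q with hk | hk
    · have hkp : q = k + 1 := by omega
      rw [S_Gf_lt hk]
      simp only [Gf, hkp, lt_irrefl, if_false, if_true]
      obtain ⟨t, rfl⟩ : ∃ t, n = k + 3 + t := ⟨n - (k + 3), by omega⟩
      rw [show k + 3 + t - 2 - (k + 1) = t by omega, show k + 3 + t - 1 - (k + 1) = t + 1 by omega,
        pow_succ]
      ring
    · rw [ih hk (by omega)]
      simp only [Gf]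
      rw [if_pos (by omega)]
      obtain ⟨t, rfl⟩ : ∃ t, n = k + 2 + t := ⟨n - (k + 2), by omega⟩
      rw [show k + 2 + t - 1 - k = t + 1 by omega, show k + 2 + t - 1 - (k + 1) = t by omega,
        pow_succ]
      ring

theorem X_Gf_lt {n q i : ℕ} (h : i < q) : X (Gf n q) i = 0 := by
  unfold X
  rw [S_Gf_lt h]
  simp only [Gf]
  rw [if_neg (by omega), if_neg (by omega), zero_add]

theorem Gf_nonneg (n q m : ℕ) : 0 ≤ Gf n q m := by
  unfold Gf
  split_ifs <;> positivity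

theorem S_Gf_nonneg (n q m : ℕ) : 0 ≤ S (Gf n q) m :=
  Finset.sum_nonneg fun _ _ => Gf_nonneg _ _ _

theorem X_Gf_ge {n q i : ℕ} (h : q ≤ i) : 0 < X (Gf n q) i := by
  unfold X
  have h1 := S_Gf_nonneg n q i
  have h2 : 0 < Gf n q i := by
    unfold Gf
    split_ifs with h3 h4
    · positivity
    · positivity
    · omega
  linarith

theorem Y_Gf_lt {n q j : ℕ} (h : j < q) : Y (Gf n q) j = 0 := by
  unfold Y
  rw [S_Gf_lt (by omega)]
  simp only [Gf]
  rw [if_neg (by omega), if_neg (by omega), sub_zero]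

theorem Y_Gf_self {n q : ℕ} (hq : 1 ≤ q) : 0 < Y (Gf n q) q := by
  unfold Y
  rw [S_Gf_lt (by omega)]
  simp only [Gf, lt_irrefl, if_false, if_true, sub_zero]
  positivity

theorem Y_Gf_gt {n q j : ℕ} (hq1 : 1 ≤ q) (h : q < j) (hj : j + 1 ≤ n) : Y (Gf n q) j = 0 := by
  unfold Y
  rw [S_Gf_ge hq1 (by omega) (by omega) (by omega)]
  simp only [Gf]
  rw [if_pos h]
  obtain ⟨t, rfl⟩ : ∃ t, n = j + 1 + t := ⟨n - (j + 1), by omega⟩
  rw [show j + 1 + t - 1 - (j - 1) = t + 1 by omega, show j + 1 + t - 1 - j = t by omega, pow_succ]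
  ring

/-- the facet functional -/
noncomputable def H (n p q : ℕ) (m : ℕ) : ℝ := Ef p m + Gf n q m

/-- the valid facet indices -/
def Fa (n p q : ℕ) : Prop := 1 ≤ p ∧ p ≤ q ∧ q ≠ p + 1 ∧ q + 1 ≤ n ∧ p + 2 ≤ n ∧ 2 ≤ q

theorem H_bd {n p q : ℕ} (hn : 4 ≤ n) (h : Fa n p q) : H n p q 1 = H n p q (n - 1) := by
  obtain ⟨h1, h2, h3, h4, h5, h6⟩ := h
  unfold H
  have e1 : Ef p 1 = 1 := by
    unfold Ef
    split_ifs with h7 h8
    · simp
    · subst h8; simp
    · omega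
  have e2 : Gf n q 1 = 0 := by
    unfold Gf
    rw [if_neg (by omega), if_neg (by omega)]
  have e3 : Ef p (n - 1) = 0 := by
    unfold Ef
    rw [if_neg (by omega), if_neg (by omega)]
  have e4 : Gf n q (n - 1) = 1 := by
    unfold Gf
    split_ifs with h7 h8
    · simp
    · rw [← h8, show n - 2 - (n - 1) = 0 by omega]; simp
    · omega
  rw [e1, e2, e3, e4]; ring

/-- values of the facet functionals -/
theorem H_nonneg {n p q i j : ℕ} (h : Fa n p q) (hi : 1 ≤ i) (hj : 1 ≤ j) (hj' : j + 1 ≤ n) :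
    0 ≤ X (H n p q) i + Y (H n p q) j ∧
      (X (H n p q) i + Y (H n p q) j = 0 ↔ (i < q ∧ i ≠ p ∧ p < j ∧ j ≠ q)) := by
  obtain ⟨h1, h2, h3, h4, h5, h6⟩ := h
  have eX : X (H n p q) i = X (Ef p) i + X (Gf n q) i := X_add _ _ _
  have eY : Y (H n p q) j = Y (Ef p) j + Y (Gf n q) j := Y_add _ _ _
  rw [eX, eY]
  have a : aE p ≤ X (Ef p) i ∧ (X (Ef p) i = aE p ↔ i ≠ p) := by
    by_cases hip : i = p
    · have : aE p < X (Ef p) i := by rw [hip]; exact X_Ef_self h1
      exact ⟨this.le, ⟨fun h => absurd h this.ne', fun h => absurd hip h⟩⟩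
    · have := X_Ef h1 hi hip
      exact ⟨this.ge, ⟨fun _ => hip, fun _ => this⟩⟩
  have b : - aE p ≤ Y (Ef p) j ∧ (Y (Ef p) j = - aE p ↔ p < j) := by
    by_cases hpj : p < j
    · have := Y_Ef h1 hpj
      exact ⟨this.ge, ⟨fun _ => hpj, fun _ => this⟩⟩
    · have : - aE p < Y (Ef p) j := Y_Ef_le hj (by omega)
      exact ⟨this.le, ⟨fun h => absurd h this.ne', fun h => absurd h hpj⟩⟩
  have c : 0 ≤ X (Gf n q) i ∧ (X (Gf n q) i = 0 ↔ i < q) := by
    by_cases hiq : i < q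
    · have := X_Gf_lt (n := n) hiq
      exact ⟨this.ge, ⟨fun _ => hiq, fun _ => this⟩⟩
    · have : 0 < X (Gf n q) i := X_Gf_ge (by omega)
      exact ⟨this.le, ⟨fun h => absurd h this.ne', fun h => absurd h hiq⟩⟩
  have d : 0 ≤ Y (Gf n q) j ∧ (Y (Gf n q) j = 0 ↔ j ≠ q) := by
    by_cases hjq : j = q
    · have : 0 < Y (Gf n q) j := by rw [hjq]; exact Y_Gf_self (by omega)
      exact ⟨this.le, ⟨fun h => absurd h this.ne', fun h => absurd hjq h⟩⟩
    · have : Y (Gf n q) j = 0 := by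
        rcases Nat.lt_or_ge j q with h' | h'
        · exact Y_Gf_lt h'
        · exact Y_Gf_gt (by omega) (by omega) hj'
      exact ⟨this.ge, ⟨fun _ => hjq, fun _ => this⟩⟩
  refine ⟨by linarith [a.1, b.1, c.1, d.1], ?_⟩
  constructor
  · intro hh
    refine ⟨c.2.1 ?_, a.2.1 ?_, b.2.1 ?_, d.2.1 ?_⟩ <;> linarith [a.1, b.1, c.1, d.1]
  · rintro ⟨h7, h8, h9, h10⟩
    have := a.2.2 h8
    have := b.2.2 h9
    have := c.2.2 h7
    have := d.2.2 h10
    linarith

theorem H_good {n p q : ℕ} (hn : 4 ≤ n) (h : Fa n p q) : Good n (H n p q) := by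
  refine ⟨H_bd hn h, fun i j hij => (H_nonneg h hij.1 ?_ hij.2.1).1⟩
  obtain ⟨h1, h2, h3⟩ := hij
  rcases h3 with h3 | h3 <;> omega

end Pool.Helper81.JN
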